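import Pool.Agent.T9h36.NY.Sharp

set_option autoImplicit false

/-!
# Closure properties of `NP`
-/

namespace Pool.Agent.T9h36.NZ

open Pool.Agent.NPC Pool.Agent.H660R2.NX Pool.Agent.T9h36.NX Pool.Agent.T9h36.NY Turing

attribute [local irreducible] unpair

theorem inNP_of_reduces {L L' : Set (List Bool)} (h : Reduces L L') (h' : InNP L') : InNP L := by
  obtain ⟨f, hf, hfL⟩ := h
  obtain ⟨V, p, hV, hL'⟩ := h'
  obtain ⟨r, hr⟩ := length_bound hf
  have hVp := poly_of_polyTime hV
  have hfp := poly_of_polyTime hf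
  refine ⟨fun y => if (unpair y).2.length ≤ p.eval (f (unpair y).1).length then
    V (pairBits (f (unpair y).1) (unpair y).2) else [], p.comp r, ?_, fun x => ?_⟩
  · refine polyTime_of_poly' ?_
    have h1 : NPC.Poly (fun y : List Bool => f (unpair y).1) := hfp.comp (by fun_prop)
    have h2 : NPC.Poly (fun y : List Bool => p.eval (f (unpair y).1).length) :=
      (UPoly.eval (UPoly.length h1) _).toPoly
    exact NPC.Poly.ite (NPC.Poly.decide_le (by fun_prop) h2)
      (hVp.comp (poly_pairBits h1 (by fun_prop))) (NPC.Poly.const _)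
  · simp only [unpair_pairBits]
    rw [hfL x, hL']
    constructor
    · rintro ⟨w, hw, hV'⟩
      refine ⟨w, ?_, ?_⟩
      · rw [Polynomial.eval_comp]
        exact hw.trans (eval_mono'' p (hr x))
      · rw [if_pos hw]
        exact hV'
    · rintro ⟨w, -, hV'⟩
      split_ifs at hV' with hw
      exact ⟨w, hw, hV'⟩

/-- `NP` predicates, with typed certificates. -/
theorem inNP_of {β : Type} [TEnc β] [TDec β] {P : List Bool → Prop} {R : List Bool × β → Bool}
    (hR : NPC.Poly R) (p : Polynomial ℕ)
    (h : ∀ a, P a ↔ ∃ w : β, sz w ≤ p.eval (sz a) ∧ R (a, w) = true) : InNP {x | P x} := by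
  have h1 : InNPP P := inNPP_of hR p h
  refine inNP_of_reduces ⟨fun x => bits x, polyTime_bits NPC.Poly.id, fun x => ?_⟩ h1
  rw [bits_mem_lang]
  rfl

/-- The test that `w` is a certificate of `s`. -/
def cert (V : List Bool → List Bool) (p : Polynomial ℕ) (s w : List Bool) : Bool :=
  decide (w.length ≤ p.eval s.length) && decide (V (pairBits s w) = [true])

theorem poly_cert {V : List Bool → List Bool} (hV : PolyTime V) (p : Polynomial ℕ) {α : Type}
    [TEnc α] {s w : α → List Bool} (hs : NPC.Poly s) (hw : NPC.Poly w) :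
    NPC.Poly (fun a => cert V p (s a) (w a)) := by
  unfold cert
  have h1 : NPC.Poly (fun a => p.eval (s a).length) := (UPoly.eval (UPoly.length hs) _).toPoly
  exact NPC.Poly.and (NPC.Poly.decide_le (NPC.Poly.length hw) h1)
    (NPC.Poly.dec_eq ((poly_of_polyTime hV).comp (poly_pairBits hs hw)) (NPC.Poly.const _))

theorem cert_iff {V : List Bool → List Bool} {p : Polynomial ℕ} {s w : List Bool} :
    cert V p s w = true ↔ w.length ≤ p.eval s.length ∧ V (pairBits s w) = [true] := by
  simp [cert]

theorem sz_zip_bound {Q : List (List Bool)} {ws : List (List Bool)} {p : Polynomial ℕ} {B : ℕ}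
    (hlen : ws.length = Q.length) (hB : sz Q ≤ B)
    (h : ∀ i (h1 : i < Q.length) (h2 : i < ws.length), ws[i].length ≤ p.eval Q[i].length) :
    sz ws ≤ B * (4 * p.eval B + 2) + 1 := by
  have h1 : ∀ a ∈ ws, sz a ≤ 4 * p.eval B + 1 := by
    intro a ha
    obtain ⟨i, hi, rfl⟩ := List.mem_iff_getElem.1 ha
    have h2 := h i (by omega) hi
    have h3 : Q[i].length ≤ B := by
      have h4 := sz_le_of_mem (List.getElem_mem (l := Q) (n := i) (by omega))
      have h5 := sz_le_listBool Q[i]
      omega
    have h4 := eval_mono'' p h3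
    have h5 := sz_listBool_le ws[i]
    omega
  have h2 := sz_le_length_mul ws (4 * p.eval B + 1) h1
  have h3 := length_lt_sz Q
  have h4 : ws.length ≤ B := by omega
  refine h2.trans ?_
  have h5 : ws.length * (4 * p.eval B + 1 + 1) ≤ B * (4 * p.eval B + 2) :=
    Nat.mul_le_mul h4 (by omega)
  omega

/-- `NP` is closed under universal quantification over polynomially many strings. -/
theorem inNP_all {A : Set (List Bool)} (hA : InNP A) {P : List Bool → Bool}
    {Q : List Bool → List (List Bool)} (hP : NPC.Poly P) (hQ : NPC.Poly Q) :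
    InNP {y | P y = true ∧ ∀ s ∈ Q y, s ∈ A} := by
  obtain ⟨V, p, hV, hA⟩ := hA
  obtain ⟨r, hr⟩ := hQ.sz_le
  refine inNP_of (β := List (List Bool)) (R := fun t => P t.1 &&
    (decide (t.2.length = (Q t.1).length) &&
      ((Q t.1).zip t.2).all fun sw => cert V p sw.1 sw.2)) ?_
    (r * (4 * p.comp r + 2) + 1) fun y => ?_
  · have h1 : NPC.Poly (fun t : List Bool × List (List Bool) => P t.1) := hP.comp (by fun_prop)
    have h2 : NPC.Poly (fun t : List Bool × List (List Bool) => Q t.1) := hQ.comp (by fun_prop)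
    have h3 : NPC.Poly (fun t : (List Bool × List (List Bool)) × (List Bool × List Bool) =>
      cert V p t.2.1 t.2.2) := poly_cert hV p (by fun_prop) (by fun_prop)
    exact NPC.Poly.and h1 (NPC.Poly.and (NPC.Poly.dec_eq (NPC.Poly.length (by fun_prop))
      (NPC.Poly.length h2)) (NPC.Poly.all (NPC.Poly.zip h2 (by fun_prop)) h3))
  · simp only [Bool.and_eq_true, decide_eq_true_eq, List.all_eq_true]
    constructor
    · rintro ⟨h1, h2⟩
      have h3 : ∀ s : {s // s ∈ Q y}, ∃ w : List Bool, w.length ≤ p.eval s.1.length ∧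
          V (pairBits s.1 w) = [true] := fun s => (hA s.1).1 (h2 s.1 s.2)
      choose g hg using h3
      have hlen : ((Q y).attach.map g).length = (Q y).length := by simp
      refine ⟨(Q y).attach.map g, ?_, h1, hlen, ?_⟩
      · have h4 := sz_zip_bound (p := p) hlen (hr y) (fun i h1 h2 => by
          have hi : i < (Q y).attach.length := by rw [List.length_attach]; exact h1
          rw [List.getElem_map]
          have := (hg ((Q y).attach[i]'hi)).1
          simpa using this)
        refine h4.trans (le_of_eq ?_)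
        simp only [Polynomial.eval_add, Polynomial.eval_mul, Polynomial.eval_comp,
          Polynomial.eval_one, Polynomial.eval_ofNat]
      · intro sw hsw
        obtain ⟨i, hi, rfl⟩ := List.mem_iff_getElem.1 hsw
        have hi' : i < (Q y).attach.length := by
          rw [List.length_zip] at hi
          rw [List.length_attach]
          omega
        rw [List.getElem_zip, List.getElem_map, cert_iff]
        have := hg ((Q y).attach[i]'hi')
        simpa using this
    · rintro ⟨ws, -, h1, hlen, h2⟩
      refine ⟨h1, fun s hs => ?_⟩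
      obtain ⟨i, hi, rfl⟩ := List.mem_iff_getElem.1 hs
      have hi' : i < ((Q y).zip ws).length := by rw [List.length_zip]; omega
      have h3 := h2 _ (List.getElem_mem hi')
      rw [List.getElem_zip, cert_iff] at h3
      exact (hA _).2 ⟨_, h3⟩

/-- `NP` is closed under existential quantification over polynomially many strings. -/
theorem inNP_any {A : Set (List Bool)} (hA : InNP A) {Q : List Bool → List (List Bool)}
    (hQ : NPC.Poly Q) : InNP {y | ∃ s ∈ Q y, s ∈ A} := by
  obtain ⟨V, p, hV, hA⟩ := hA
  obtain ⟨r, hr⟩ := hQ.sz_le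
  refine inNP_of (β := List Bool × List Bool) (R := fun t => ((Q t.1).any fun s => decide (s = t.2.1)) &&
    cert V p t.2.1 t.2.2) ?_ (r + 4 * p.comp r + 2) fun y => ?_
  · have h2 : NPC.Poly (fun t : List Bool × (List Bool × List Bool) => Q t.1) :=
      hQ.comp (by fun_prop)
    have h3 : NPC.Poly (fun t : List Bool × (List Bool × List Bool) => t.2.1) := by fun_prop
    exact NPC.Poly.and (NPC.Poly.any h2 (NPC.Poly.dec_eq (by fun_prop) (by fun_prop)))
      (poly_cert hV p h3 (by fun_prop))
  · simp only [Bool.and_eq_true, decide_eq_true_eq, List.any_eq_true, exists_eq_right]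
    constructor
    · rintro ⟨s, hs, hsA⟩
      obtain ⟨w, hw, hVw⟩ := (hA s).1 hsA
      refine ⟨(s, w), ?_, hs, cert_iff.2 ⟨hw, hVw⟩⟩
      have h1 := sz_le_of_mem hs
      have h2 := hr y
      have h3 := sz_le_listBool s
      have h4 := eval_mono'' p (show s.length ≤ r.eval (sz y) by omega)
      have h5 := sz_listBool_le w
      rw [sz_pair]
      simp only [Polynomial.eval_add, Polynomial.eval_mul, Polynomial.eval_comp,
        Polynomial.eval_ofNat]
      omega
    · rintro ⟨sw, -, hs, h⟩
      exact ⟨sw.1, hs, (hA _).2 ⟨sw.2, cert_iff.1 h⟩⟩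

/-- `NP` is contained in `NTIME(2 ^ O(n ^ b))`. -/
theorem inNTE_of_inNP {b : ℕ} (hb : 1 ≤ b) {B : Set (List Bool)} (h : InNP B) : InNTE b B := by
  obtain ⟨V, p, hV, hB⟩ := h
  obtain ⟨K, d, hKd⟩ := poly_bound p
  refine ⟨fun y => if (unpair y).2.length ≤ p.eval (unpair y).1.length then V y else [],
    K + d, ?_, fun x => ?_⟩
  · refine polyTime_of_poly' ?_
    have h2 : NPC.Poly (fun y : List Bool => p.eval (unpair y).1.length) :=
      (UPoly.eval (UPoly.length (by fun_prop)) _).toPoly
    exact NPC.Poly.ite (NPC.Poly.decide_le (by fun_prop) h2) (poly_of_polyTime hV)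
      (NPC.Poly.const _)
  · simp only [unpair_pairBits]
    rw [hB x]
    constructor
    · rintro ⟨w, hw, hVw⟩
      refine ⟨w, hw.trans ((hKd x.length).trans ?_), by rw [if_pos hw]; exact hVw⟩
      have h1 : K ≤ 2 ^ K := Nat.lt_two_pow_self.le
      have h2 : (x.length + 1) ^ d ≤ 2 ^ (d * (x.length + 1)) := by
        rw [mul_comm, pow_mul]
        exact Nat.pow_le_pow_left Nat.lt_two_pow_self.le d
      have h3 : x.length + 1 ≤ (x.length + 1) ^ b := Nat.le_self_pow (by omega) _
      calc K * (x.length + 1) ^ d ≤ 2 ^ K * 2 ^ (d * (x.length + 1)) := Nat.mul_le_mul h1 h2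
        _ = 2 ^ (K + d * (x.length + 1)) := (pow_add _ _ _).symm
        _ ≤ 2 ^ ((K + d) * (x.length + 1) ^ b) := by
          refine Nat.pow_le_pow_right (by norm_num) ?_
          have h4 : d * (x.length + 1) ≤ d * (x.length + 1) ^ b := Nat.mul_le_mul_left _ h3
          have h5 : K * 1 ≤ K * (x.length + 1) ^ b := Nat.mul_le_mul_left _ (by omega)
          rw [add_mul]
          omega
    · rintro ⟨w, -, hVw⟩
      split_ifs at hVw with hw
      exact ⟨w, hw, hVw⟩

/-- `NP` is contained in `EXP`. -/
theorem inEXP_of_inNP {B : Set (List Bool)} (h : InNP B) : InEXP B := by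
  obtain ⟨V, p, hV, hB⟩ := h
  refine inEXP_of (D := fun z pad => (allB (p.eval z.length) pad).any fun w =>
    decide (V (pairBits z w) = [true])) ?_ p fun x => ?_
  · refine NPC.Poly.any (poly_allB (UPoly.eval (UPoly.length (by fun_prop)) _) (by fun_prop)) ?_
    exact NPC.Poly.dec_eq ((poly_of_polyTime hV).comp (poly_pairBits (by fun_prop)
      (by fun_prop))) (NPC.Poly.const _)
  · have e1 : allB (p.eval x.length) (List.replicate (2 ^ p.eval x.length) ()) =
        allStr (p.eval x.length) := allB_eq (by rw [List.length_replicate])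
    rw [e1, hB x, List.any_eq_true]
    constructor
    · rintro ⟨w, hw, hVw⟩
      exact ⟨w, mem_allStr.2 hw, by simpa using hVw⟩
    · rintro ⟨w, hw, hVw⟩
      exact ⟨w, mem_allStr.1 hw, by simpa using hVw⟩

end Pool.Agent.T9h36.NZ
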