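import Pool.Agent.T9h36.NZ.Main

set_option autoImplicit false

/-!
# A language in `NEXP` such that neither it nor its complement is decided
-/

namespace Pool.Agent.T9h36.NZ

open Pool.Agent.NPC Pool.Agent.H660R2.NX Pool.Agent.T9h36.NX Pool.Agent.T9h36.NY Turing Filter

theorem ncard_split (n : ℕ) (Q : List Bool → Prop) :
    {x : List Bool | x.length = n ∧ Q x}.ncard + {x : List Bool | x.length = n ∧ ¬ Q x}.ncard =
      2 ^ n := by
  classical
  have hn : n ≤ (Polynomial.X : Polynomial ℕ).eval n := by simp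
  obtain ⟨hnd, hin⟩ := inputs_spec (R := Polynomial.X) hn
  have hlen := length_of_all hnd hin
  rw [ncard_eq_countP hnd hin, ncard_eq_countP hnd hin, ← hlen,
    List.length_eq_countP_add_countP (fun x => decide (Q x))
      (l := inputs n (padn Polynomial.X n))]
  congr 1
  refine List.countP_congr fun x _ => ?_
  simp

theorem finite_slice (n : ℕ) (Q : List Bool → Prop) : {x : List Bool | x.length = n ∧ Q x}.Finite :=
  (List.finite_length_eq Bool n).subset fun _ hx => hx.1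

theorem acc_finite (C c : ℕ) (B B' : Set (List Bool)) (n : ℕ) (s : List Bool) :
    (Acc C c B B' n s).Finite := finite_slice n _

theorem acc_empty (C c n : ℕ) (s : List Bool) : Acc C c ∅ ∅ n s = ∅ := by
  ext x
  simp [NY.Acc]

/-- The size of a slice of a random-like language. -/
theorem RandomLike.size {b c : ℕ} {L : Set (List Bool)} {E : ℕ}
    (hE : ∀ (C : ℕ) (B B' : Set (List Bool)), InNTE b B → InNTE b B' →
      ∀ᶠ n in Filter.atTop, ∀ s : List Bool, s.length ≤ C * (n + 1) ^ c →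
        2 * {x : List Bool | x.length = n ∧ (x ∈ Acc C c B B' n s ↔ x ∈ L)}.ncard ≤
          2 ^ n + 2 ^ (n / 2) * (n + 1) ^ E ∧
        2 * {x : List Bool | x.length = n ∧ ¬ (x ∈ Acc C c B B' n s ↔ x ∈ L)}.ncard ≤
          2 ^ n + 2 ^ (n / 2) * (n + 1) ^ E ∧
        (Acc C c B B' n s ⊆ L → (Acc C c B B' n s).ncard ≤ (n + 1) ^ E) ∧
        ({x : List Bool | x.length = n ∧ x ∈ L} ⊆ Acc C c B B' n s →
          {x : List Bool | x.length = n ∧ x ∉ Acc C c B B' n s}.ncard ≤ (n + 1) ^ E)) :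
    ∀ᶠ n : ℕ in atTop, 2 * {x : List Bool | x.length = n ∧ x ∉ L}.ncard ≤
        2 ^ n + 2 ^ (n / 2) * (n + 1) ^ E ∧
      2 * {x : List Bool | x.length = n ∧ x ∈ L}.ncard ≤ 2 ^ n + 2 ^ (n / 2) * (n + 1) ^ E := by
  filter_upwards [hE 0 ∅ ∅ (inNTE_empty b) (inNTE_empty b)] with n h1
  obtain ⟨h3, h4, -, -⟩ := h1 [] (by simp)
  rw [acc_empty] at h3 h4
  have e1 : {x : List Bool | x.length = n ∧ (x ∈ (∅ : Set (List Bool)) ↔ x ∈ L)} =
      {x : List Bool | x.length = n ∧ x ∉ L} := by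
    ext x
    simp
  have e2 : {x : List Bool | x.length = n ∧ ¬ (x ∈ (∅ : Set (List Bool)) ↔ x ∈ L)} =
      {x : List Bool | x.length = n ∧ x ∈ L} := by
    ext x
    simp
  rw [e1] at h3
  rw [e2] at h4
  exact ⟨h3, h4⟩

/-- Covering a slice by few small sets. -/
theorem cover_bound {b c : ℕ} {m : ℕ → ℕ} {L : Set (List Bool)} (h : InTalk b c m L) :
    ∃ (C : ℕ) (B B' : Set (List Bool)), InNTE b B ∧ InNTE b B' ∧ ∀ (n G : ℕ),
      (∀ s : List Bool, s.length ≤ C * (n + 1) ^ c → Acc C c B B' n s ⊆ L →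
        (Acc C c B B' n s).ncard ≤ G) →
      {x : List Bool | x.length = n ∧ x ∈ L}.ncard ≤ 2 ^ (m n + 1) * G := by
  classical
  obtain ⟨C, q, a, F, B, B', hB, -, hB', -, -, -, hL⟩ := h
  refine ⟨C, B, B', hB, hB', fun n G hG => ?_⟩
  have hsub : {x : List Bool | x.length = n ∧ x ∈ L} ⊆
      ⋃ w ∈ (allStr (m n)).toFinset.filter
        (fun w => (talk (fun v => F (bits (a n, v))) w).length ≤ C * (n + 1) ^ c),
        Acc C c B B' n (talk (fun v => F (bits (a n, v))) w) := by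
    rintro x ⟨hx, hxL⟩
    obtain ⟨u, w, hu, hw, ht, hb1, hb2⟩ := (hL x).1 hxL
    subst hx
    simp only [Set.mem_iUnion]
    refine ⟨w, ?_, rfl, u, hu, hb1, hb2⟩
    rw [Finset.mem_filter, List.mem_toFinset, mem_allStr]
    exact ⟨hw, ht⟩
  have hAccL : ∀ w ∈ (allStr (m n)).toFinset.filter
      (fun w => (talk (fun v => F (bits (a n, v))) w).length ≤ C * (n + 1) ^ c),
      (Acc C c B B' n (talk (fun v => F (bits (a n, v))) w)).ncard ≤ G := by
    intro w hw
    rw [Finset.mem_filter, List.mem_toFinset, mem_allStr] at hw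
    refine hG _ hw.2 ?_
    rintro x ⟨hx, u, hu, hb1, hb2⟩
    subst hx
    exact (hL x).2 ⟨u, w, hu, hw.1, hw.2, hb1, hb2⟩
  refine (Set.ncard_le_ncard hsub (Set.Finite.biUnion (Finset.finite_toSet _)
    fun w _ => acc_finite _ _ _ _ _ _)).trans ?_
  refine (Finset.set_ncard_biUnion_le _ _).trans ?_
  refine (Finset.sum_le_card_nsmul _ _ _ hAccL).trans ?_
  rw [smul_eq_mul]
  refine Nat.mul_le_mul_right _ ((Finset.card_filter_le _ _).trans ?_)
  refine (List.toFinset_card_le _).trans ?_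
  have := length_allStr (m n)
  omega

theorem not_inTalk_of_randomLike {b c : ℕ} {L : Set (List Bool)} (hLR : RandomLike b c L)
    {m : ℕ → ℕ} (hm : ∀ K : ℕ, ∀ᶠ n in atTop, 2 * m n + K * Nat.log 2 n ≤ n) :
    ¬ InTalk b c m L ∧ ¬ InTalk b c m Lᶜ := by
  obtain ⟨E, hE⟩ := hLR
  have hlogn : ∀ᶠ n : ℕ in atTop, 2 * E + 14 ≤ Nat.log 2 n := by
    filter_upwards [eventually_ge_atTop (2 ^ (2 * E + 14))] with n hn
    exact Nat.le_log_of_pow_le (by norm_num) hn
  have hsize := RandomLike.size hE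
  -- arithmetic
  have harith : ∀ᶠ n : ℕ in atTop, 2 ^ (m n + 1) * (2 ^ (n / 2) * (n + 1) ^ E) * 8 ≤ 2 ^ n ∧
      8 * (2 ^ (n / 2) * (n + 1) ^ E) ≤ 2 ^ n := by
    filter_upwards [hlogn, hm (2 * E + 1)] with n h1 h2
    have h5 : n + 1 ≤ 2 ^ (Nat.log 2 n + 1) := Nat.lt_pow_succ_log_self (by norm_num) n
    have h6 : (n + 1) ^ E ≤ 2 ^ ((Nat.log 2 n + 1) * E) := by
      rw [pow_mul]
      exact Nat.pow_le_pow_left h5 E
    have e1 : (2 * E + 1) * Nat.log 2 n = 2 * (E * Nat.log 2 n) + Nat.log 2 n := by ring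
    have e2 : (Nat.log 2 n + 1) * E = E * Nat.log 2 n + E := by ring
    have h7 : 2 ^ (m n + 1) * (2 ^ (n / 2) * (n + 1) ^ E) * 8 ≤ 2 ^ n := by
      calc 2 ^ (m n + 1) * (2 ^ (n / 2) * (n + 1) ^ E) * 8
          ≤ 2 ^ (m n + 1) * (2 ^ (n / 2) * 2 ^ ((Nat.log 2 n + 1) * E)) * 2 ^ 3 :=
            Nat.mul_le_mul (Nat.mul_le_mul_left _ (Nat.mul_le_mul_left _ h6)) (by norm_num)
        _ = 2 ^ (m n + 1 + (n / 2 + (Nat.log 2 n + 1) * E) + 3) := by
          rw [← pow_add, ← pow_add, ← pow_add]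
        _ ≤ 2 ^ n := by
          refine Nat.pow_le_pow_right (by norm_num) ?_
          omega
    refine ⟨h7, le_trans ?_ h7⟩
    rw [mul_comm 8]
    refine Nat.mul_le_mul_right _ ?_
    exact Nat.le_mul_of_pos_left _ (by positivity)
  refine ⟨fun h => ?_, fun h => ?_⟩
  · obtain ⟨C, B, B', hB, hB', hcov⟩ := cover_bound h
    obtain ⟨n, h1, h2, h3, h4⟩ := ((hE C B B' hB hB').and (hsize.and harith)).exists
    have h5 := hcov n (2 ^ (n / 2) * (n + 1) ^ E) (fun s hs hsub =>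
      ((h1 s hs).2.2.1 hsub).trans (Nat.le_mul_of_pos_left _ (by positivity)))
    have h6 := ncard_split n (fun x => x ∈ L)
    have h7 : 8 * {x : List Bool | x.length = n ∧ x ∈ L}.ncard ≤ 2 ^ n := by
      refine (Nat.mul_le_mul_left 8 h5).trans ?_
      rw [mul_comm]
      exact h3
    have h8 := h2.1
    have h9 := Nat.one_le_two_pow (n := n)
    omega
  · obtain ⟨C, B, B', hB, hB', hcov⟩ := cover_bound h
    obtain ⟨n, h1, h2, h3, h4⟩ := ((hE C B B' hB hB').and (hsize.and harith)).exists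
    have h6 := ncard_split n (fun x => x ∈ L)
    have h5 := hcov n (2 ^ (n / 2) * (n + 1) ^ E) (fun s hs hsub => by
      have h10 := (h1 s hs).2.1
      have e1 : {x : List Bool | x.length = n ∧ ¬ (x ∈ Acc C c B B' n s ↔ x ∈ L)} =
          Acc C c B B' n s ∪ {x : List Bool | x.length = n ∧ x ∈ L} := by
        ext x
        simp only [Set.mem_ofPred_eq, Set.mem_union]
        constructor
        · rintro ⟨hx, hx2⟩
          by_cases h11 : x ∈ L
          · exact Or.inr ⟨hx, h11⟩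
          · left
            by_contra h12
            exact hx2 ⟨fun h => absurd h h12, fun h => absurd h h11⟩
        · rintro (hx | ⟨hx, hx2⟩)
          · exact ⟨hx.1, fun h => (hsub hx) (h.1 hx)⟩
          · exact ⟨hx, fun h => (hsub (h.2 hx2)) hx2⟩
      have hdisj : Disjoint (Acc C c B B' n s) {x : List Bool | x.length = n ∧ x ∈ L} := by
        rw [Set.disjoint_left]
        intro x hx hx2
        exact (hsub hx) hx2.2
      rw [e1, Set.ncard_union_eq hdisj (acc_finite _ _ _ _ _ _) (finite_slice n _)] at h10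
      have h11 := h2.1
      omega)
    have h7 : 8 * {x : List Bool | x.length = n ∧ x ∈ Lᶜ}.ncard ≤ 2 ^ n := by
      refine (Nat.mul_le_mul_left 8 h5).trans ?_
      rw [mul_comm]
      exact h3
    have e2 : {x : List Bool | x.length = n ∧ x ∈ Lᶜ} = {x : List Bool | x.length = n ∧ x ∉ L} :=
      rfl
    rw [e2] at h7
    have h8 := h2.2
    have h9 := Nat.one_le_two_pow (n := n)
    omega

theorem inEXP_compl {B : Set (List Bool)} (h : InEXP B) : InEXP Bᶜ := by
  obtain ⟨V, p, hV, hB⟩ := h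
  refine ⟨fun y => if V y = [true] then [false] else [true], p, ?_, fun x => ?_⟩
  · refine polyTime_of_poly' ?_
    exact NPC.Poly.ite (NPC.Poly.dec_eq (poly_of_polyTime hV) (NPC.Poly.const _))
      (NPC.Poly.const _) (NPC.Poly.const _)
  · rw [Set.mem_compl_iff, hB x]
    simp only
    split_ifs with h1 <;> simp [h1]

theorem inEXPPoly_of_compl {L : Set (List Bool)} (h : InEXPPoly Lᶜ) : InEXPPoly L := by
  obtain ⟨E, q, a, hE, ha, hL⟩ := h
  refine ⟨Eᶜ, q, a, inEXP_compl hE, ha, fun x => ?_⟩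
  rw [Set.mem_compl_iff, ← hL x, Set.mem_compl_iff, not_not]

/-- **`NEXP` against algorithms that talk to an advice holder**, for a language and its
complement. -/
theorem exists_not_inTalk_compl {b c : ℕ} (hb : 1 ≤ b) (hc : 1 ≤ c) :
    ∃ L : Set (List Bool), InNEXP L ∧ ∀ m : ℕ → ℕ,
      (∀ K : ℕ, ∀ᶠ n in atTop, 2 * m n + K * Nat.log 2 n ≤ n) →
        ¬ InTalk b c m L ∧ ¬ InTalk b c m Lᶜ := by
  classical
  have hMM : ∀ m : ℕ → ℕ, (∀ K : ℕ, ∀ᶠ n in atTop, 2 * m n + K * Nat.log 2 n ≤ n) →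
      ∃ M, ∀ n, m n ≤ n + M := by
    intro m hm
    obtain ⟨n0, hn0⟩ := eventually_atTop.1 (hm 0)
    refine ⟨(Finset.range n0).sup m, fun n => ?_⟩
    rcases lt_or_ge n n0 with h | h
    · have h1 : m n ≤ (Finset.range n0).sup m := Finset.le_sup (f := m) (Finset.mem_range.2 h)
      omega
    · have h1 := hn0 n h
      omega
  by_cases hK : InEXPPoly KSet
  swap
  · exact ⟨KSet, inNEXP_KSet, fun m hm => ⟨fun h => hK (h.inEXPPoly (hMM m hm)),
      fun h => hK (inEXPPoly_of_compl (h.inEXPPoly (hMM m hm)))⟩⟩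
  obtain ⟨L, -, hLN, hLR⟩ := dich hb hc hK
  exact ⟨L, hLN, fun m hm => not_inTalk_of_randomLike hLR hm⟩

/-- **`NEXP` against nondeterministic reductions to the join of an `NP` set and a sparse set.** -/
theorem exists_not_inSparse_compl {c : ℕ} (hc : 1 ≤ c) :
    ∃ L : Set (List Bool), InNEXP L ∧ ∀ q : ℕ → ℕ,
      (∀ K : ℕ, ∀ᶠ n in atTop, K * (q n * Nat.log 2 n) ≤ n) →
        ¬ InSparse c q L ∧ ¬ InSparse c q Lᶜ := by
  obtain ⟨L, hLN, hL⟩ := exists_not_inTalk_compl (b := 1) (c := c + 1) le_rfl (by omega)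
  refine ⟨L, hLN, fun q hq => ?_⟩
  have key : ∀ (ρ : ℕ → ℕ) (K : ℕ), (∀ n, ρ n ≤ K * (Nat.log 2 n + 1)) →
      (∀ K' : ℕ, ∀ᶠ n in atTop, 2 * (ρ n * q n) + K' * Nat.log 2 n ≤ n) ∧
      ∃ M, ∀ n, ρ n * q n ≤ n + M := by
    intro ρ K hρ
    have hm : ∀ K' : ℕ, ∀ᶠ n in atTop, 2 * (ρ n * q n) + K' * Nat.log 2 n ≤ n := by
      intro K'
      filter_upwards [hq (8 * K), log_small (2 * K'), eventually_ge_atTop 2] with n h1 h2 h3
      have h4 : 1 ≤ Nat.log 2 n := Nat.le_log_of_pow_le (by norm_num) (by simpa using h3)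
      have h5 : ρ n * q n ≤ K * (2 * Nat.log 2 n) * q n :=
        Nat.mul_le_mul_right _ ((hρ n).trans (Nat.mul_le_mul_left _ (by omega)))
      have h6 : 8 * K * (q n * Nat.log 2 n) = 4 * (K * (2 * Nat.log 2 n) * q n) := by ring
      have h7 : 2 * K' * Nat.log 2 n = 2 * (K' * Nat.log 2 n) := by ring
      omega
    refine ⟨hm, ?_⟩
    obtain ⟨n0, hn0⟩ := eventually_atTop.1 (hm 0)
    refine ⟨(Finset.range n0).sup fun n => ρ n * q n, fun n => ?_⟩
    rcases lt_or_ge n n0 with h | h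
    · have h1 : ρ n * q n ≤ (Finset.range n0).sup fun n => ρ n * q n :=
        Finset.le_sup (f := fun n => ρ n * q n) (Finset.mem_range.2 h)
      omega
    · have h1 := hn0 n h
      omega
  constructor
  · intro h
    obtain ⟨ρ, K, hρ, hT⟩ := h.inTalk hc
    obtain ⟨h1, h2⟩ := key ρ K hρ
    exact (hL _ h1).1 (hT h2)
  · intro h
    obtain ⟨ρ, K, hρ, hT⟩ := h.inTalk hc
    obtain ⟨h1, h2⟩ := key ρ K hρ
    exact (hL _ h1).2 (hT h2)

end Pool.Agent.T9h36.NZ
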