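import Pool.Agent.T9h36.NZ.Match

set_option autoImplicit false

/-!
# The tests characterise correct computations
-/

namespace Pool.Agent.T9h36.NZ

open Pool.Agent.NPC Pool.Agent.H660R2.NX Pool.Agent.T9h36.NX Pool.Agent.T9h36.NY Turing

/-- The potential queries to the sparse set that have the answer yes. -/
def pot (f : List Bool → List Bool) (a : List Bool) (n k : ℕ) (Z : Set (List Bool)) :
    Set (List Bool) :=
  {s | (∃ z ∈ Z, s = false :: true :: z) ∧ ∃ x u h : List Bool, x.length = n ∧ u.length ≤ k ∧
    h.length ≤ k ∧ alg f (pairBits x u) a h = s}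

theorem mem_join_false {A Z : Set (List Bool)} {z : List Bool} :
    false :: z ∈ join A Z ↔ z ∈ A := by
  constructor
  · rintro (⟨z', hz', h⟩ | ⟨z', hz', h⟩)
    · rw [List.cons.injEq] at h
      rw [h.2]
      exact hz'
    · simp at h
  · intro h
    exact Or.inl ⟨z, h, rfl⟩

theorem mem_join_true {A Z : Set (List Bool)} {z : List Bool} :
    true :: z ∈ join A Z ↔ z ∈ Z := by
  constructor
  · rintro (⟨z', hz', h⟩ | ⟨z', hz', h⟩)
    · simp at h
    · rw [List.cons.injEq] at h
      rw [h.2]
      exact hz'
  · intro h
    exact Or.inr ⟨z, h, rfl⟩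

theorem nil_notMem_join {A Z : Set (List Bool)} : [] ∉ join A Z := by
  rintro (⟨z', hz', h⟩ | ⟨z', hz', h⟩) <;> simp at h

section

variable {f : List Bool → List Bool} {x u h a : List Bool} {ρ : ℕ} {lab : List Bool → List Bool}
  {w : List Bool} {T : List Bool → Option ℕ} {A Z : Set (List Bool)} {Cp : Polynomial ℕ}
  {l : List ℕ}

theorem length_zq : (zq f (par x u h a ρ lab w)).length =
    numRight (alg f (pairBits x u) a) h := by
  unfold zq numRight
  rw [List.length_map, List.countP_eq_length_filter]
  rfl

theorem getD_eq {i : ℕ} (hi : i < h.length) : h.getD i false = h[i] := by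
  rw [List.getD_eq_getElem?_getD, List.getElem?_eq_getElem hi, Option.getD_some]

/-- If all tests are positive, the computation is correct. -/
theorem correct_of_chk (hρ : 0 < ρ)
    (hlab : ∀ y, ((unbits Name (lab y)).map fun nm =>
      key (alg f (pairBits nm.1 nm.2.1) a nm.2.2)) = T y)
    (hT : ∀ (k : ℕ) (b : List Bool), b.length = ρ →
        (∀ (j : ℕ) (hj : j < b.length), b[j] = step T k (b.take j)) →
        ((∃ j < ρ, T (b.take j) = some k) ↔ k ∈ l))
    (hl : ∀ k, k ∈ l ↔ ∃ s ∈ pot f a x.length (Cp.eval x.length) Z, key s = k)
    (hchk : chk f Cp (par x u h a ρ lab w) = true)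
    (hyes : ∀ s ∈ yesQ f (par x u h a ρ lab w), s ∈ A)
    (hno : ∀ s ∈ noQ f (par x u h a ρ lab w), s ∉ A) :
    Correct (alg f (pairBits x u) a) (join A Z) h ∧ alg f (pairBits x u) a h = [true] ∧
      u.length ≤ Cp.eval x.length ∧ h.length ≤ Cp.eval x.length ∧
      w.length = numRight (alg f (pairBits x u) a) h * ρ := by
  have hP : (par x u h a ρ lab w).2.2.2.1.length = ρ := List.length_replicate
  have hact : ∀ i, actD f (par x u h a ρ lab w) i = alg f (pairBits x u) a (h.take i) :=
    fun _ => rfl
  unfold chk at hchk
  rw [hP, length_zq] at hchk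
  simp only [Bool.and_eq_true, decide_eq_true_eq, List.all_eq_true, List.mem_range,
    hact] at hchk
  obtain ⟨⟨hu, hh⟩, h1, h2, h3, h4⟩ := hchk
  change u.length ≤ Cp.eval x.length at hu
  change h.length ≤ Cp.eval x.length at hh
  change ∀ i < h.length, (alg f (pairBits x u) a (h.take i)).head? = some false ∧
    (!(decide (alg f (pairBits x u) a (h.take i) = [false]) && h.getD i false)) = true at h1
  change alg f (pairBits x u) a (h.take h.length) = [true] at h2
  change w.length = _ at h3
  rw [List.take_length] at h2
  refine ⟨fun i hi => ?_, h2, hu, hh, h3⟩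
  obtain ⟨h5, h6⟩ := h1 i hi
  rw [getD_eq hi] at h6
  obtain ⟨q, hq⟩ : ∃ q, alg f (pairBits x u) a (h.take i) = false :: q := by
    cases ha : alg f (pairBits x u) a (h.take i) with
    | nil => rw [ha] at h5; simp at h5
    | cons b q =>
      rw [ha] at h5
      simp only [List.head?_cons, Option.some.injEq] at h5
      exact ⟨q, by rw [h5]⟩
  refine ⟨q, hq, ?_⟩
  cases q with
  | nil =>
    rw [hq] at h6
    constructor
    · intro h7
      simp [h7] at h6
    · intro h7
      exact absurd h7 nil_notMem_join
  | cons b z =>
    cases b with
    | false =>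
      rw [mem_join_false]
      constructor
      · intro h7
        refine hyes z ?_
        unfold yesQ
        rw [List.mem_map]
        refine ⟨i, ?_, by rw [hact, hq]; rfl⟩
        rw [List.mem_filter, List.mem_range, hact, hq]
        refine ⟨hi, ?_⟩
        change (decide (List.take 2 (false :: false :: z) = [false, false]) &&
          h.getD i false) = true
        rw [getD_eq hi, h7]
        simp
      · intro h7
        by_contra h8
        refine hno z ?_ h7
        unfold noQ
        rw [List.mem_map]
        refine ⟨i, ?_, by rw [hact, hq]; rfl⟩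
        rw [List.mem_filter, List.mem_range, hact, hq]
        refine ⟨hi, ?_⟩
        change (decide (List.take 2 (false :: false :: z) = [false, false]) &&
          !h.getD i false) = true
        rw [getD_eq hi, Bool.eq_false_iff.2 h8]
        simp
    | true =>
      rw [mem_join_true]
      have h7 : (alg f (pairBits x u) a (h.take i), h[i]) ∈ zq f (par x u h a ρ lab w) := by
        unfold zq
        rw [List.mem_map]
        refine ⟨i, ?_, ?_⟩
        · rw [List.mem_filter, List.mem_range, hact, hq]
          exact ⟨hi, by simp⟩
        · rw [hact]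
          change (_, h.getD i false) = _
          rw [getD_eq hi]
      obtain ⟨t, ht, ht'⟩ := List.mem_iff_getElem.1 h7
      have h8 := h4 (_, t) (List.mem_zipIdx_iff_getElem?.2 (List.getElem?_eq_getElem ht))
      rw [ht'] at h8
      rw [length_zq] at ht
      have h9 : t * ρ + ρ ≤ w.length := by
        rw [h3]
        have : (t + 1) * ρ ≤ numRight (alg f (pairBits x u) a) h * ρ :=
          Nat.mul_le_mul_right _ ht
        rw [Nat.add_mul] at this
        omega
      have h10 := of_srch hρ hlab hT h9 h8
      simp only at h10
      rw [h10, hl]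
      constructor
      · rintro ⟨s, ⟨⟨z', hz', hs⟩, -⟩, hsk⟩
        have h11 := key_injective hsk
        rw [hs, hq] at h11
        simp only [List.cons.injEq, true_and] at h11
        rw [← h11]
        exact hz'
      · intro hz
        exact ⟨_, ⟨⟨z, hz, hq⟩, x, u, h.take i, rfl, hu, by
          rw [List.length_take]; omega, rfl⟩, rfl⟩

/-- The message sent to the advice holder for the computation with the answers `h`. -/
def msg (f : List Bool → List Bool) (T : List Bool → Option ℕ) (ρ : ℕ) (x u h a : List Bool) :
    List Bool :=
  (zq f ((x, u, h), ([], []), (a, [], []))).flatMap fun z => path T (key z.1) ρ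

theorem length_msg : (msg f T ρ x u h a).length =
    numRight (alg f (pairBits x u) a) h * ρ := by
  unfold msg
  rw [length_flatMap_const (fun z : List Bool × Bool => path T (key z.1) ρ)
    (fun z => length_path _ _ _)]
  congr 1
  unfold zq numRight
  rw [List.length_map, List.countP_eq_length_filter]
  rfl

/-- For a correct computation all tests are positive. -/
theorem chk_of_correct (hρ : 0 < ρ)
    (hlab : ∀ y, ((unbits Name (lab y)).map fun nm =>
      key (alg f (pairBits nm.1 nm.2.1) a nm.2.2)) = T y)
    (hT : ∀ (k : ℕ) (b : List Bool), b.length = ρ →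
        (∀ (j : ℕ) (hj : j < b.length), b[j] = step T k (b.take j)) →
        ((∃ j < ρ, T (b.take j) = some k) ↔ k ∈ l))
    (hl : ∀ k, k ∈ l ↔ ∃ s ∈ pot f a x.length (Cp.eval x.length) Z, key s = k)
    (hu : u.length ≤ Cp.eval x.length) (hh : h.length ≤ Cp.eval x.length)
    (hc : Correct (alg f (pairBits x u) a) (join A Z) h)
    (hfin : alg f (pairBits x u) a h = [true]) :
    chk f Cp (par x u h a ρ lab (msg f T ρ x u h a)) = true ∧
      (∀ s ∈ yesQ f (par x u h a ρ lab (msg f T ρ x u h a)), s ∈ A) ∧
      (∀ s ∈ noQ f (par x u h a ρ lab (msg f T ρ x u h a)), s ∉ A) := by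
  set w := msg f T ρ x u h a with hw
  have hP : (par x u h a ρ lab w).2.2.2.1.length = ρ := List.length_replicate
  have hact : ∀ i, actD f (par x u h a ρ lab w) i = alg f (pairBits x u) a (h.take i) :=
    fun _ => rfl
  refine ⟨?_, ?_, ?_⟩
  · unfold chk
    rw [hP, length_zq]
    simp only [Bool.and_eq_true, decide_eq_true_eq, List.all_eq_true, List.mem_range, hact]
    refine ⟨⟨hu, hh⟩, ?_, ?_, ?_, ?_⟩
    · change ∀ i < h.length, (alg f (pairBits x u) a (h.take i)).head? = some false ∧
        (!(decide (alg f (pairBits x u) a (h.take i) = [false]) && h.getD i false)) = true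
      intro i hi
      obtain ⟨q, hq, hq'⟩ := hc i hi
      rw [hq]
      refine ⟨rfl, ?_⟩
      rw [getD_eq hi]
      cases q with
      | nil =>
        have : h[i] = false := by
          by_contra h1
          exact nil_notMem_join (hq'.1 (by simpa using h1))
        simp [this]
      | cons b z => simp
    · change alg f (pairBits x u) a (h.take h.length) = [true]
      rw [List.take_length]
      exact hfin
    · exact length_msg
    · rintro ⟨z, t⟩ hzt
      rw [List.mem_zipIdx_iff_getElem?] at hzt
      simp only at hzt
      obtain ⟨ht, ht'⟩ := List.getElem?_eq_some_iff.1 hzt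
      have ht2 : t < numRight (alg f (pairBits x u) a) h := by rwa [length_zq] at ht
      have h9 : t * ρ + ρ ≤ w.length := by
        rw [hw, length_msg]
        have : (t + 1) * ρ ≤ numRight (alg f (pairBits x u) a) h * ρ :=
          Nat.mul_le_mul_right _ ht2
        rw [Nat.add_mul] at this
        omega
      refine srch_of hρ hlab hT h9 ?_ ?_
      · have h10 := drop_flatMap_const (fun z : List Bool × Bool => path T (key z.1) ρ)
          (fun z => length_path _ _ _) (zq f (par x u h a ρ lab w)) t ht ρ le_rfl
        have h11 : (path T (key (zq f (par x u h a ρ lab w))[t].1) ρ).take ρ =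
            path T (key (zq f (par x u h a ρ lab w))[t].1) ρ :=
          List.take_of_length_le (by rw [length_path])
        rw [h11, ht'] at h10
        exact h10
      · have hz : z ∈ zq f (par x u h a ρ lab w) := by
          rw [← ht']
          exact List.getElem_mem ht
        unfold zq at hz
        rw [List.mem_map] at hz
        obtain ⟨i, hi, rfl⟩ := hz
        rw [List.mem_filter, List.mem_range, decide_eq_true_eq, hact] at hi
        obtain ⟨hi, hi2⟩ := hi
        change i < h.length at hi
        rw [hact]
        change h.getD i false = true ↔ key (alg f (pairBits x u) a (h.take i)) ∈ l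
        rw [getD_eq hi]
        obtain ⟨q, hq, hq'⟩ := hc i hi
        rw [hq', hl]
        rw [hq] at hi2
        cases q with
        | nil => simp at hi2
        | cons b z =>
          simp only [List.take_succ_cons, List.take_zero, List.cons.injEq, and_true,
            true_and] at hi2
          subst hi2
          rw [mem_join_true]
          constructor
          · intro hz
            exact ⟨_, ⟨⟨z, hz, hq⟩, x, u, h.take i, rfl, hu, by
              rw [List.length_take]; omega, rfl⟩, rfl⟩
          · rintro ⟨s, ⟨⟨z', hz', hs⟩, -⟩, hsk⟩
            have h11 := key_injective hsk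
            rw [hs, hq] at h11
            simp only [List.cons.injEq, true_and] at h11
            rw [← h11]
            exact hz'
  · intro s hs
    unfold yesQ at hs
    rw [List.mem_map] at hs
    obtain ⟨i, hi, rfl⟩ := hs
    rw [List.mem_filter, List.mem_range, Bool.and_eq_true, decide_eq_true_eq, hact] at hi
    obtain ⟨hi, hi2, hi3⟩ := hi
    change i < h.length at hi
    change h.getD i false = true at hi3
    rw [getD_eq hi] at hi3
    obtain ⟨q, hq, hq'⟩ := hc i hi
    rw [hact, hq]
    rw [hq] at hi2
    cases q with
    | nil => simp at hi2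
    | cons b z =>
      simp only [List.take_succ_cons, List.take_zero, List.cons.injEq, and_true,
        true_and] at hi2
      subst hi2
      exact mem_join_false.1 (hq'.1 hi3)
  · intro s hs
    unfold noQ at hs
    rw [List.mem_map] at hs
    obtain ⟨i, hi, rfl⟩ := hs
    rw [List.mem_filter, List.mem_range, Bool.and_eq_true, decide_eq_true_eq, hact] at hi
    obtain ⟨hi, hi2, hi3⟩ := hi
    change i < h.length at hi
    change (!h.getD i false) = true at hi3
    rw [getD_eq hi] at hi3
    obtain ⟨q, hq, hq'⟩ := hc i hi
    rw [hact, hq]
    rw [hq] at hi2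
    cases q with
    | nil => simp at hi2
    | cons b z =>
      simp only [List.take_succ_cons, List.take_zero, List.cons.injEq, and_true,
        true_and] at hi2
      subst hi2
      intro h7
      have h8 : h[i] = true := hq'.2 (mem_join_false.2 h7)
      rw [h8] at hi3
      simp at hi3

end

end Pool.Agent.T9h36.NZ
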