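import Pool.Agent.H660R2.NX.Defs

set_option autoImplicit false

/-!
# Nondeterministic reductions to the join of an `NP` set and a sparse set
-/

namespace Pool.Agent.T9h36.NZ

open Pool.Agent.NPC Pool.Agent.H660R2.NX

/-- A sparse set: for some polynomial `p` it has, for every `n`, at most `p(n)` elements of length
at most `n`. -/
def Sparse (Z : Set (List Bool)) : Prop :=
  ∃ p : Polynomial ℕ, ∀ n : ℕ, {z : List Bool | z ∈ Z ∧ z.length ≤ n}.ncard ≤ p.eval n

/-- The join of two sets: the query `false :: z` asks whether `z` is in `A`, and the query
`true :: z` asks whether `z` is in `Z` (the answer to the empty query is no). -/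
def join (A Z : Set (List Bool)) : Set (List Bool) :=
  {s | (∃ z ∈ A, s = false :: z) ∨ ∃ z ∈ Z, s = true :: z}

/-- The number of the queries to the second set of the join in the computation with the list `h`
of answers: the number of the `i < h.length` such that the action after the first `i` answers is
`false :: true :: z` for some `z`. -/
def numRight (act : List Bool → List Bool) (h : List Bool) : ℕ :=
  (List.range h.length).countP fun i => decide ((act (h.take i)).take 2 = [false, true])

/-- The nonuniform class of the languages with the following kind of reductions to the join of a
set `A` in `NP` and of a sparse set `Z`: an algorithm that computes its actions in polynomial time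
from the input `x` of length `n`, a guessed string `u` of length `O(n ^ c)`, the advice `a n` of
length `O(n ^ c)` and the oracle answers received so far makes `O(n ^ c)` queries, and at most
`q n` of them to `Z`; the input `x` is accepted iff the algorithm accepts for some `u`. The length
of the queries is bounded by an arbitrary polynomial. -/
def InSparse (c : ℕ) (q : ℕ → ℕ) (L : Set (List Bool)) : Prop :=
  ∃ (C : ℕ) (f : List Bool → List Bool) (A Z : Set (List Bool)) (a : ℕ → List Bool),
    PolyTime f ∧ InNP A ∧ Sparse Z ∧ (∀ n, (a n).length ≤ C * (n + 1) ^ c) ∧
    ∀ x : List Bool, x ∈ L ↔ ∃ u h : List Bool,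
      u.length ≤ C * (x.length + 1) ^ c ∧ h.length ≤ C * (x.length + 1) ^ c ∧
      Correct (alg f (pairBits x u) (a x.length)) (join A Z) h ∧
      numRight (alg f (pairBits x u) (a x.length)) h ≤ q x.length ∧
      alg f (pairBits x u) (a x.length) h = [true]

end Pool.Agent.T9h36.NZ
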