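import Pool.Agent.T9h36.NZ.Core

set_option autoImplicit false

/-!
# Reductions with few queries to a sparse set are conversations with an advice holder
-/

namespace Pool.Agent.T9h36.NZ

open Pool.Agent.NPC Pool.Agent.H660R2.NX Pool.Agent.T9h36.NX Pool.Agent.T9h36.NY Turing Filter

/-- The search tree, with its labels. -/
theorem exists_data (f : List Bool → List Bool) (a : List Bool) (n k : ℕ) (Z : Set (List Bool))
    (hfin : (pot f a n k Z).Finite) :
    ∃ (lab : List Bool → List Bool) (T : List Bool → Option ℕ) (l : List ℕ),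
      (∀ y, ((unbits Name (lab y)).map fun nm =>
        key (alg f (pairBits nm.1 nm.2.1) a nm.2.2)) = T y) ∧
      (∀ (m : ℕ) (b : List Bool), b.length = Nat.log 2 (pot f a n k Z).ncard + 1 →
        (∀ (j : ℕ) (hj : j < b.length), b[j] = step T m (b.take j)) →
        ((∃ j < Nat.log 2 (pot f a n k Z).ncard + 1, T (b.take j) = some m) ↔ m ∈ l)) ∧
      (∀ m, m ∈ l ↔ ∃ s ∈ pot f a n k Z, key s = m) ∧
      (∀ y, (lab y).length ≤ 4 * n + 8 * k + 5) := by
  classical
  obtain ⟨l, hl1, hl2, hl3⟩ := exists_list hfin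
  have hlen : l.length < 2 ^ (Nat.log 2 (pot f a n k Z).ncard + 1) := by
    rw [hl2]
    exact Nat.lt_pow_succ_log_self (by norm_num) _
  obtain ⟨T, hT1, hT2⟩ := exists_tree _ l hl1 hlen
  have hname : ∀ m : {m // m ∈ l}, ∃ nm : Name, nm.1.length = n ∧ nm.2.1.length ≤ k ∧
      nm.2.2.length ≤ k ∧ key (alg f (pairBits nm.1 nm.2.1) a nm.2.2) = m.1 := by
    rintro ⟨m, hm⟩
    obtain ⟨s, ⟨-, x, u, h, hx, hu, hh, hs⟩, hsk⟩ := (hl3 m).1 hm
    exact ⟨(x, u, h), hx, hu, hh, by rw [hs, hsk]⟩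
  choose g hg using hname
  refine ⟨fun y => if hy : ∃ m, T y = some m then bits (g ⟨hy.choose, hT1 y _ hy.choose_spec⟩)
    else [], T, l, fun y => ?_, hT2, hl3, fun y => ?_⟩
  · by_cases hy : ∃ m, T y = some m
    · simp only [dif_pos hy]
      rw [unbits_bits, Option.map_some, (hg _).2.2.2]
      exact hy.choose_spec.symm
    · simp only [dif_neg hy]
      rw [unbits_nil_name]
      cases hTy : T y with
      | none => rfl
      | some m => exact absurd ⟨m, hTy⟩ hy
  · by_cases hy : ∃ m, T y = some m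
    · simp only [dif_pos hy]
      rw [bits_length]
      obtain ⟨h1, h2, h3, -⟩ := hg ⟨hy.choose, hT1 y _ hy.choose_spec⟩
      generalize g ⟨hy.choose, hT1 y _ hy.choose_spec⟩ = nm at h1 h2 h3
      obtain ⟨x, u, h⟩ := nm
      have e1 : sz (x, u, h) = sz x + (sz u + sz h + 1) + 1 := by rw [sz_pair, sz_pair]
      have h4 := sz_listBool_le x
      have h5 := sz_listBool_le u
      have h6 := sz_listBool_le h
      simp only at h1 h2 h3
      omega
    · simp only [dif_neg hy, List.length_nil]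
      omega

/-- The length of the input of the algorithm. -/
theorem length_input_le {x u a h : List Bool} {n k : ℕ} (hx : x.length = n) (hu : u.length ≤ k)
    (hh : h.length ≤ k) (ha : a.length ≤ k) :
    (pairBits (pairBits (pairBits x u) a) h).length ≤ 8 * n + 7 * k + 7 := by
  rw [length_pairBits, length_pairBits, length_pairBits]
  omega

theorem pot_bound {f : List Bool → List Bool} {pf : Polynomial ℕ}
    (hpf : ∀ x, (f x).length ≤ pf.eval x.length) {Z : Set (List Bool)} {pZ : Polynomial ℕ}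
    (hZ : ∀ n : ℕ, {z : List Bool | z ∈ Z ∧ z.length ≤ n}.ncard ≤ pZ.eval n)
    {a : List Bool} {n k : ℕ} (ha : a.length ≤ k) :
    (pot f a n k Z).Finite ∧
      (pot f a n k Z).ncard ≤ pZ.eval (pf.eval (8 * n + 7 * k + 7)) := by
  have hfin : {z : List Bool | z ∈ Z ∧ z.length ≤ pf.eval (8 * n + 7 * k + 7)}.Finite :=
    (List.finite_length_le Bool _).subset fun z hz => hz.2
  have hsub : pot f a n k Z ⊆ (fun z => false :: true :: z) ''
      {z : List Bool | z ∈ Z ∧ z.length ≤ pf.eval (8 * n + 7 * k + 7)} := by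
    rintro s ⟨⟨z, hz, hs⟩, x, u, h, hx, hu, hh, halg⟩
    refine ⟨z, ⟨hz, ?_⟩, hs.symm⟩
    have h1 := hpf (pairBits (pairBits (pairBits x u) a) h)
    have h2 := eval_mono'' pf (length_input_le hx hu hh ha)
    have h3 : (f (pairBits (pairBits (pairBits x u) a) h)).length = z.length + 2 := by
      change (alg f (pairBits x u) a h).length = _
      rw [halg, hs]
      rfl
    omega
  refine ⟨(hfin.image _).subset hsub, ?_⟩
  exact (Set.ncard_le_ncard hsub (hfin.image _)).trans ((Set.ncard_image_le hfin).trans (hZ _))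

theorem pb_poly {k : ℕ} {g : ℕ → ℕ} (hg : PB k g) (p : Polynomial ℕ) :
    ∃ k', PB k' fun n => p.eval (g n) := by
  obtain ⟨K, d, hK⟩ := poly_bound p
  obtain ⟨D, hD⟩ := (hg.succ_pow d).const_mul K
  exact ⟨k * d, D, fun n => (hK _).trans (hD n)⟩

theorem pow_log_le {m : ℕ} : 2 ^ (Nat.log 2 m + 1) ≤ 2 * (m + 1) := by
  rcases Nat.eq_zero_or_pos m with rfl | hm
  · simp
  · have := Nat.pow_log_le_self 2 hm.ne'
    rw [pow_succ]
    omega

theorem log_bound {e D n m : ℕ} (h : m ≤ D * (n + 1) ^ e) :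
    Nat.log 2 m + 1 ≤ (D + e + 1) * (Nat.log 2 n + 1) := by
  have h1 : D ≤ 2 ^ D := Nat.lt_two_pow_self.le
  have h2 : n + 1 ≤ 2 ^ (Nat.log 2 n + 1) := Nat.lt_pow_succ_log_self (by norm_num) n
  have h3 : m ≤ 2 ^ (D + (Nat.log 2 n + 1) * e) := by
    rw [pow_add, pow_mul]
    exact h.trans (Nat.mul_le_mul h1 (Nat.pow_le_pow_left h2 e))
  have h4 : Nat.log 2 m ≤ D + (Nat.log 2 n + 1) * e := by
    have := Nat.log_mono_right (b := 2) h3
    rwa [Nat.log_pow (by norm_num)] at this
  nlinarith [Nat.zero_le (Nat.log 2 n), Nat.zero_le (D * Nat.log 2 n)]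

theorem log_small (K : ℕ) : ∀ᶠ n : ℕ in atTop, K * Nat.log 2 n ≤ n := by
  filter_upwards [eventually_ge_atTop (2 ^ (4 * K))] with n hn
  have hn0 : n ≠ 0 := by
    have : 0 < 2 ^ (4 * K) := by positivity
    omega
  have h1 : 4 * K ≤ Nat.log 2 n := Nat.le_log_of_pow_le (by norm_num) hn
  refine le_trans ?_ (Nat.pow_log_le_self 2 hn0)
  generalize Nat.log 2 n = t at h1
  have h2 : t / 2 + (t - t / 2) = t := by omega
  have h3 : t / 2 + 1 ≤ 2 ^ (t / 2) := Nat.lt_two_pow_self
  have h4 : (t - t / 2) + 1 ≤ 2 ^ (t - t / 2) := Nat.lt_two_pow_self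
  have h5 : 2 * K * (t - t / 2) ≤ 2 ^ (t / 2) * 2 ^ (t - t / 2) :=
    Nat.mul_le_mul (by omega) (by omega)
  rw [← pow_add, h2] at h5
  refine le_trans ?_ h5
  calc K * t ≤ K * (2 * (t - t / 2)) := Nat.mul_le_mul_left _ (by omega)
    _ = 2 * K * (t - t / 2) := by ring

/-- Lengths of the replies. -/
theorem length_holder_le {a : List Bool} {ρ : ℕ} (hρ : 0 < ρ) {lab : List Bool → List Bool}
    {La : ℕ} (hlab : ∀ y, (lab y).length ≤ La) (v : List Bool) :
    (holder (bits (adv a ρ lab, v))).length ≤ 4 * a.length + 2 * ρ + 5 * La + 5 := by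
  by_cases hv : v = []
  · subst hv
    rw [holder_nil, bits_length, sz_pair, sz_pair, sz_replicate_unit]
    have h1 := sz_listBool_le a
    have h2 := sz_listBool_le (lab [])
    have h3 := hlab []
    omega
  · rw [holder_ne a hρ lab hv]
    exact (hlab _).trans (by omega)

theorem sz_replies_le {a : List Bool} {ρ : ℕ} (hρ : 0 < ρ) {lab : List Bool → List Bool}
    {La : ℕ} (hlab : ∀ y, (lab y).length ≤ La) (w : List Bool) :
    sz (replies a ρ lab w) ≤
      (w.length + 1) * (4 * (4 * a.length + 2 * ρ + 5 * La + 5) + 2) + 1 := by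
  have h1 := sz_le_length_mul (replies a ρ lab w)
    (4 * (4 * a.length + 2 * ρ + 5 * La + 5) + 1) (fun s hs => by
      unfold replies at hs
      rw [List.mem_map] at hs
      obtain ⟨i, -, rfl⟩ := hs
      have h2 := length_holder_le hρ hlab (a := a) (w.take i)
      have h3 := sz_listBool_le (holder (bits (adv a ρ lab, w.take i)))
      omega)
  have h2 : (replies a ρ lab w).length = w.length + 1 := by
    unfold replies
    rw [List.length_map, List.length_range]
  rw [h2] at h1
  exact h1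

theorem length_adv_le {a : List Bool} {ρ : ℕ} {lab : List Bool → List Bool}
    {La : ℕ} (hlab : ∀ y, (lab y).length ≤ La) :
    (adv a ρ lab).length ≤ 4 * (4 * a.length + 2 * ρ + 4 * La + 5) + 2 * ρ +
      2 * 2 ^ ρ * (4 * ρ + 4 * La + 4) + 5 := by
  unfold adv
  rw [bits_length, sz_pair, sz_pair, sz_replicate_unit]
  have h1 := sz_listBool_le (bits (a, List.replicate ρ (), lab []))
  rw [bits_length, sz_pair, sz_pair, sz_replicate_unit] at h1
  have h2 := sz_listBool_le a
  have h3 := sz_listBool_le (lab [])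
  have h4 := hlab []
  have h5 : sz (table ρ lab) ≤ (table ρ lab).length * (4 * ρ + 4 * La + 4) + 1 := by
    refine sz_le_length_mul _ (4 * ρ + 4 * La + 3) fun s hs => ?_
    unfold table at hs
    rw [List.mem_map] at hs
    obtain ⟨y, hy, rfl⟩ := hs
    rw [mem_allStr] at hy
    have h6 := sz_listBool_le y
    have h7 := sz_listBool_le (lab y)
    have h8 := hlab y
    rw [sz_pair]
    omega
  have h6 : (table ρ lab).length ≤ 2 * 2 ^ ρ := by
    unfold table
    rw [List.length_map]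
    have := length_allStr ρ
    rw [pow_succ] at this
    omega
  have h7 : (table ρ lab).length * (4 * ρ + 4 * La + 4) ≤
      2 * 2 ^ ρ * (4 * ρ + 4 * La + 4) := Nat.mul_le_mul_right _ h6
  omega

/-- **Few queries to a sparse set**: a short conversation with an advice holder. -/
theorem InSparse.inTalk {c : ℕ} (hc : 1 ≤ c) {q : ℕ → ℕ} {L : Set (List Bool)}
    (h : InSparse c q L) : ∃ (ρ : ℕ → ℕ) (K : ℕ), (∀ n, ρ n ≤ K * (Nat.log 2 n + 1)) ∧
      ((∃ M, ∀ n, ρ n * q n ≤ n + M) → InTalk 1 (c + 1) (fun n => ρ n * q n) L) := by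
  classical
  obtain ⟨C, f, A, Z, a, hf, hA, ⟨pZ, hZ⟩, ha, hL⟩ := h
  obtain ⟨pf, hpf⟩ := length_bound hf
  let Cp : Polynomial ℕ := Polynomial.C C * (Polynomial.X + 1) ^ c
  have hCp : ∀ n : ℕ, Cp.eval n = C * (n + 1) ^ c := fun n => by simp [Cp]
  have hCpb : PB c fun n => Cp.eval n := ⟨C, fun n => (hCp n).le⟩
  have hpot : ∀ n, _ := fun n => pot_bound (n := n) hpf hZ (show (a n).length ≤ Cp.eval n by
    rw [hCp]; exact ha n)
  have hdata := fun n => exists_data f (a n) n (Cp.eval n) Z (hpot n).1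
  choose lab T l hlab hT hl hLa using hdata
  let ρ : ℕ → ℕ := fun n => Nat.log 2 (pot f (a n) n (Cp.eval n) Z).ncard + 1
  have hρ : ∀ n, 0 < ρ n := fun n => Nat.succ_pos _
  -- the number of the potential queries
  have hargb : PB c fun n => 8 * n + 7 * Cp.eval n + 7 :=
    ((PB.const_mul 8 (PB.id hc)).add (hCpb.const_mul 7)).add (PB.const c 7)
  obtain ⟨k1, hk1⟩ := pb_poly hargb pf
  obtain ⟨e, D, he⟩ := pb_poly hk1 pZ
  have hcard : ∀ n, (pot f (a n) n (Cp.eval n) Z).ncard ≤ D * (n + 1) ^ e := fun n =>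
    (hpot n).2.trans (he n)
  have hρK : ∀ n, ρ n ≤ (D + e + 1) * (Nat.log 2 n + 1) := fun n => log_bound (hcard n)
  refine ⟨ρ, D + e + 1, hρK, ?_⟩
  rintro ⟨M, hM⟩
  -- bounds
  have hρb : PB c ρ := by
    refine PB.mono hc ⟨D + e + 1, fun n => (hρK n).trans ?_⟩
    rw [pow_one]
    exact Nat.mul_le_mul_left _ (by have := Nat.log_le_self 2 n; omega)
  have hLab : PB c fun n => 4 * n + 8 * Cp.eval n + 5 :=
    ((PB.const_mul 4 (PB.id hc)).add (hCpb.const_mul 8)).add (PB.const c 5)
  have h2ρ : PB e fun n => 2 * 2 ^ ρ n := by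
    refine ⟨4 * (D + 1), fun n => ?_⟩
    have h1 := pow_log_le (m := (pot f (a n) n (Cp.eval n) Z).ncard)
    have h2 := hcard n
    have h3 : 1 ≤ (n + 1) ^ e := Nat.one_le_pow _ _ (by omega)
    calc 2 * 2 ^ ρ n ≤ 2 * (2 * ((pot f (a n) n (Cp.eval n) Z).ncard + 1)) :=
          Nat.mul_le_mul_left _ h1
      _ ≤ 4 * (D * (n + 1) ^ e + (n + 1) ^ e) := by omega
      _ = 4 * (D + 1) * (n + 1) ^ e := by ring
  obtain ⟨D1, hD1⟩ : ∃ D1, ∀ n, 4 * (4 * Cp.eval n + 2 * ρ n +
      4 * (4 * n + 8 * Cp.eval n + 5) + 5) + 2 * ρ n +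
      2 * 2 ^ ρ n * (4 * ρ n + 4 * (4 * n + 8 * Cp.eval n + 5) + 4) + 5 ≤
      D1 * (n + 1) ^ (e + c) := by
    have h1 : PB c fun n => 4 * (4 * Cp.eval n + 2 * ρ n +
      4 * (4 * n + 8 * Cp.eval n + 5) + 5) + 2 * ρ n :=
      ((((hCpb.const_mul 4).add (hρb.const_mul 2)).add (hLab.const_mul 4)).add
        (PB.const c 5)).const_mul 4 |>.add (hρb.const_mul 2)
    have h2 : PB c fun n => 4 * ρ n + 4 * (4 * n + 8 * Cp.eval n + 5) + 4 :=
      ((hρb.const_mul 4).add (hLab.const_mul 4)).add (PB.const c 4)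
    exact ((h1.mono (Nat.le_add_left c e)).add (h2ρ.mul h2)).add (PB.const (e + c) 5)
  obtain ⟨D2, hD2⟩ : ∃ D2, ∀ n, 4 * (n + M) + 1 + ((n + M + 1) * (4 * (4 * Cp.eval n +
      2 * ρ n + 5 * (4 * n + 8 * Cp.eval n + 5) + 5) + 2) + 1) + 1 ≤
      D2 * (n + 1) ^ (1 + c) := by
    have h0 : PB 1 fun n => n + M := (PB.id le_rfl).add (PB.const 1 M)
    have h1 : PB c fun n => 4 * (4 * Cp.eval n +
      2 * ρ n + 5 * (4 * n + 8 * Cp.eval n + 5) + 5) + 2 :=
      ((((hCpb.const_mul 4).add (hρb.const_mul 2)).add (hLab.const_mul 5)).add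
        (PB.const c 5)).const_mul 4 |>.add (PB.const c 2)
    have h2 := ((h0.const_mul 4).add (PB.const 1 1)).mono (Nat.le_add_right 1 c)
    exact ((h2.add (((h0.add (PB.const 1 1)).mul h1).add (PB.const (1 + c) 1))).add
      (PB.const (1 + c) 1))
  refine ⟨8 * C + 3 + D2, Polynomial.C D1 * (Polynomial.X + 1) ^ (e + c),
    fun n => adv (a n) (ρ n) (lab n), holder, setB f Cp A, setB' f A,
    inNTE_of_inNP le_rfl (inNP_setB hf Cp hA), inEXP_of_inNP (inNP_setB hf Cp hA),
    inNTE_of_inNP le_rfl (inNP_setB' hf hA), inEXP_of_inNP (inNP_setB' hf hA),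
    inFEXP_holder, fun n => ?_, fun x => ?_⟩
  · refine (length_adv_le (hLa n)).trans ?_
    have h1 : (a n).length ≤ Cp.eval n := by rw [hCp]; exact ha n
    have h2 := hD1 n
    have h3 : (Polynomial.C D1 * (Polynomial.X + 1) ^ (e + c)).eval n =
      D1 * (n + 1) ^ (e + c) := by simp
    rw [h3]
    omega
  · have hn : ∀ w : List Bool, w.length ≤ ρ x.length * q x.length → w.length ≤ x.length + M :=
      fun w hw => hw.trans (hM _)
    rw [hL x]
    constructor
    · rintro ⟨u, h, hu, hh, hcor, hnum, hfin⟩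
      rw [← hCp] at hu hh
      set w := msg f (T x.length) (ρ x.length) x u h (a x.length) with hw
      have hwlen : w.length ≤ ρ x.length * q x.length := by
        rw [hw, length_msg, mul_comm]
        exact Nat.mul_le_mul_left _ hnum
      obtain ⟨h1, h2, h3⟩ := chk_of_correct (lab := lab x.length) (hρ _) (hlab _) (hT _) (hl _)
        hu hh hcor hfin
      have hprs := prs_eq (y := bits (x, bits (u, h), talk (fun v => holder (bits (adv
        (a x.length) (ρ x.length) (lab x.length), v))) w)) rfl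
      rw [unbits_bits, Option.map_some] at hprs
      refine ⟨bits (u, h), w, ?_, hwlen, ?_, ?_, ?_⟩
      · rw [bits_length, sz_pair]
        have h4 := sz_listBool_le u
        have h5 := sz_listBool_le h
        rw [hCp] at hu hh
        have h6 : (x.length + 1) ^ c ≤ (x.length + 1) ^ (c + 1) :=
          Nat.pow_le_pow_right (by omega) (by omega)
        have h7 : C * (x.length + 1) ^ c ≤ C * (x.length + 1) ^ (c + 1) :=
          Nat.mul_le_mul_left _ h6
        have h8 : 1 ≤ (x.length + 1) ^ (c + 1) := Nat.one_le_pow _ _ (by omega)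
        calc sz u + sz h + 1 ≤ 8 * (C * (x.length + 1) ^ (c + 1)) + 3 := by omega
          _ ≤ (8 * C + 3 + D2) * (x.length + 1) ^ (c + 1) := by nlinarith
      · rw [talk_eq, bits_length, sz_pair]
        have h4 := sz_listBool_le w
        have h5 := sz_replies_le (a := a x.length) (hρ x.length) (hLa x.length) w
        have h6 := hn w hwlen
        have h7 := hD2 x.length
        have h8 : (a x.length).length ≤ Cp.eval x.length := by rw [hCp]; exact ha _
        have h9 : (w.length + 1) * (4 * (4 * (a x.length).length + 2 * ρ x.length +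
            5 * (4 * x.length + 8 * Cp.eval x.length + 5) + 5) + 2) ≤
            (x.length + M + 1) * (4 * (4 * Cp.eval x.length + 2 * ρ x.length +
            5 * (4 * x.length + 8 * Cp.eval x.length + 5) + 5) + 2) :=
          Nat.mul_le_mul (by omega) (by omega)
        calc sz w + sz (replies (a x.length) (ρ x.length) (lab x.length) w) + 1
            ≤ D2 * (x.length + 1) ^ (1 + c) := by omega
          _ ≤ (8 * C + 3 + D2) * (x.length + 1) ^ (c + 1) := by
            rw [Nat.add_comm 1 c]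
            exact Nat.mul_le_mul_right _ (by omega)
      · unfold setB
        rw [Set.mem_ofPred_eq, hprs]
        exact ⟨h1, h2⟩
      · unfold setB'
        rw [Set.mem_ofPred_eq, hprs]
        rintro ⟨s, hs, hsA⟩
        exact h3 s hs hsA
    · rintro ⟨u', w, -, hw, -, hB, hB'⟩
      have hprs := prs_eq (y := bits (x, u', talk (fun v => holder (bits (adv
        (a x.length) (ρ x.length) (lab x.length), v))) w)) rfl
      unfold setB at hB
      unfold setB' at hB'
      rw [Set.mem_ofPred_eq, hprs] at hB hB'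
      obtain ⟨hB1, hB2⟩ := hB
      cases hu' : unbits (List Bool × List Bool) u' with
      | none => rw [hu'] at hB1; simp at hB1
      | some uh =>
        rw [hu', Option.map_some] at hB1 hB2 hB'
        obtain ⟨h1, h2, h3, h4, h5⟩ := correct_of_chk (hρ _) (hlab _) (hT _) (hl _) hB1 hB2
          (fun s hs hsA => hB' ⟨s, hs, hsA⟩)
        rw [hCp] at h3 h4
        refine ⟨uh.1, uh.2, h3, h4, h1, ?_, h2⟩
        rw [h5, mul_comm] at hw
        exact Nat.le_of_mul_le_mul_left hw (hρ _)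

/-- **`NEXP` against nondeterministic reductions to the join of an `NP` set and a sparse set.** -/
theorem exists_not_inSparse {c : ℕ} (hc : 1 ≤ c) :
    ∃ L : Set (List Bool), InNEXP L ∧ ∀ q : ℕ → ℕ,
      (∀ K : ℕ, ∀ᶠ n in atTop, K * (q n * Nat.log 2 n) ≤ n) → ¬ InSparse c q L := by
  obtain ⟨L, hLN, hL⟩ := exists_not_inTalk (b := 1) (c := c + 1) le_rfl (by omega)
  refine ⟨L, hLN, fun q hq h => ?_⟩
  obtain ⟨ρ, K, hρ, hT⟩ := h.inTalk hc
  have hm : ∀ K' : ℕ, ∀ᶠ n in atTop, ρ n * q n + K' * Nat.log 2 n ≤ n := by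
    intro K'
    filter_upwards [hq (4 * K), log_small (2 * K'), eventually_ge_atTop 2] with n h1 h2 h3
    have h4 : 1 ≤ Nat.log 2 n := Nat.le_log_of_pow_le (by norm_num) (by simpa using h3)
    have h5 : ρ n * q n ≤ K * (2 * Nat.log 2 n) * q n :=
      Nat.mul_le_mul_right _ ((hρ n).trans (Nat.mul_le_mul_left _ (by omega)))
    have h6 : 4 * K * (q n * Nat.log 2 n) = 2 * (K * (2 * Nat.log 2 n) * q n) := by ring
    have h7 : 2 * K' * Nat.log 2 n = 2 * (K' * Nat.log 2 n) := by ring
    omega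
  refine hL _ hm (hT ?_)
  obtain ⟨n0, hn0⟩ := eventually_atTop.1 (hm 0)
  refine ⟨(Finset.range n0).sup fun n => ρ n * q n, fun n => ?_⟩
  rcases lt_or_ge n n0 with h | h
  · have h1 : ρ n * q n ≤ (Finset.range n0).sup fun n => ρ n * q n :=
      Finset.le_sup (f := fun n => ρ n * q n) (Finset.mem_range.2 h)
    omega
  · have h1 := hn0 n h
    omega

end Pool.Agent.T9h36.NZ
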