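import Pool.Agent.T9h36.NZ.Proto

set_option autoImplicit false

/-!
# Correctness of the search protocol
-/

namespace Pool.Agent.T9h36.NZ

open Pool.Agent.NPC Pool.Agent.H660R2.NX Pool.Agent.T9h36.NX Pool.Agent.T9h36.NY Turing

/-- Sorted lists of keys. -/
theorem exists_list {S : Set (List Bool)} (hS : S.Finite) : ∃ l : List ℕ, l.Pairwise (· < ·) ∧
    l.length = S.ncard ∧ ∀ k, k ∈ l ↔ ∃ s ∈ S, key s = k := by
  classical
  refine ⟨(hS.toFinset.image key).sort (· ≤ ·), ?_, ?_, fun k => ?_⟩
  · exact (Finset.sortedLT_sort _).pairwise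
  · rw [Finset.length_sort, Finset.card_image_of_injective _ key_injective,
      Set.ncard_eq_toFinset_card S hS]
  · rw [Finset.mem_sort, Finset.mem_image]
    simp

/-- The replies of the advice holder in a conversation. -/
def replies (a : List Bool) (ρ : ℕ) (lab : List Bool → List Bool) (w : List Bool) :
    List (List Bool) :=
  (List.range (w.length + 1)).map fun i => holder (bits (adv a ρ lab, w.take i))

theorem talk_eq (a : List Bool) (ρ : ℕ) (lab : List Bool → List Bool) (w : List Bool) :
    talk (fun v => holder (bits (adv a ρ lab, v))) w = bits (w, replies a ρ lab w) := rfl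

/-- The parameters of a conversation. -/
def par (x u h : List Bool) (a : List Bool) (ρ : ℕ) (lab : List Bool → List Bool)
    (w : List Bool) : Par :=
  ((x, u, h), (w, replies a ρ lab w), (a, List.replicate ρ (), lab []))

theorem replies_getD (a : List Bool) (ρ : ℕ) (lab : List Bool → List Bool) (w : List Bool)
    {p : ℕ} (hp : p ≤ w.length) :
    (replies a ρ lab w).getD p [] = holder (bits (adv a ρ lab, w.take p)) := by
  unfold replies
  rw [List.getD_eq_getElem?_getD, List.getElem?_map, List.getElem?_range (by omega)]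
  simp

theorem unbits_nil_name : unbits Name [] = none := by
  unfold unbits
  rfl

theorem prs_eq {y u' x w : List Bool} {a : List Bool} {ρ : ℕ} {lab : List Bool → List Bool}
    (hy : y = bits (x, u', talk (fun v => holder (bits (adv a ρ lab, v))) w)) :
    prs y = (unbits (List Bool × List Bool) u').map fun uh => par x uh.1 uh.2 a ρ lab w := by
  subst hy
  unfold prs
  rw [unbits_bits, Option.bind_some]
  simp only
  rw [talk_eq, unbits_bits]
  simp only [Option.bind_some]
  have e1 : (replies a ρ lab w).getD 0 [] = bits (a, List.replicate ρ (), lab []) := by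
    rw [replies_getD a ρ lab w (Nat.zero_le _), List.take_zero, holder_nil]
  rw [e1, unbits_bits]
  simp only [Option.map_some]
  cases unbits (List Bool × List Bool) u' with
  | none => rfl
  | some uh => rfl

section

variable {f : List Bool → List Bool} {x u h a : List Bool} {ρ : ℕ} {lab : List Bool → List Bool}
  {w : List Bool} {T : List Bool → Option ℕ}

theorem elK_eq (hρ : 0 < ρ)
    (hlab : ∀ y, ((unbits Name (lab y)).map fun nm =>
      key (alg f (pairBits nm.1 nm.2.1) a nm.2.2)) = T y)
    {t j : ℕ} (hj : j < ρ) (ht : t * ρ + ρ ≤ w.length) :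
    elK f (par x u h a ρ lab w) (t * ρ + j) = T ((w.drop (t * ρ)).take j) := by
  unfold elK
  by_cases h0 : t * ρ + j = 0
  · have h1 : t * ρ = 0 := by omega
    have h2 : j = 0 := by omega
    rw [if_pos h0, h2, List.take_zero]
    exact hlab []
  · rw [if_neg h0]
    have e1 : (par x u h a ρ lab w).2.1.2 = replies a ρ lab w := rfl
    rw [e1, replies_getD a ρ lab w (by omega)]
    have hlen : (w.take (t * ρ + j)).length = t * ρ + j := by
      rw [List.length_take]
      omega
    have hne : w.take (t * ρ + j) ≠ [] := by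
      intro h1
      rw [h1] at hlen
      exact h0 hlen.symm
    rw [holder_ne a hρ lab hne, hlen]
    have e2 : (t * ρ + j) % ρ = j := by
      rw [Nat.mul_comm, Nat.mul_add_mod, Nat.mod_eq_of_lt hj]
    rw [e2]
    have e3 : ((w.take (t * ρ + j)).reverse.take j).reverse = (w.drop (t * ρ)).take j := by
      rw [List.take_reverse, List.reverse_reverse, hlen, Nat.add_sub_cancel, List.drop_take,
        Nat.add_sub_cancel_left]
    rw [e3]
    exact hlab _

/-- The test of the search, in terms of the tree. -/
theorem srch_iff (hρ : 0 < ρ)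
    (hlab : ∀ y, ((unbits Name (lab y)).map fun nm =>
      key (alg f (pairBits nm.1 nm.2.1) a nm.2.2)) = T y)
    {z : List Bool × Bool} {t : ℕ} (ht : t * ρ + ρ ≤ w.length) {b : List Bool}
    (hb : b = (w.drop (t * ρ)).take ρ) :
    srch f (par x u h a ρ lab w) (z, t) = true ↔
      (∀ (j : ℕ) (hj : j < b.length), b[j] = step T (key z.1) (b.take j)) ∧
      (z.2 = true ↔ ∃ j < ρ, T (b.take j) = some (key z.1)) := by
  have hblen : b.length = ρ := by
    rw [hb, List.length_take, List.length_drop]
    omega
  have hbtake : ∀ j < ρ, b.take j = (w.drop (t * ρ)).take j := by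
    intro j hj
    rw [hb, List.take_take, min_eq_left hj.le]
  have hbget : ∀ (j : ℕ) (hj : j < b.length), b[j] = w.getD (t * ρ + j) false := by
    intro j hj
    subst hb
    rw [List.getElem_take, List.getElem_drop, List.getD_eq_getElem?_getD,
      List.getElem?_eq_getElem (by omega), Option.getD_some]
  have hP : (par x u h a ρ lab w).2.2.2.1.length = ρ := List.length_replicate
  have hw : (par x u h a ρ lab w).2.1.1 = w := rfl
  have hel := fun j (hj : j < ρ) => elK_eq (x := x) (u := u) (h := h) hρ hlab hj ht
  unfold srch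
  rw [hP, hw, Bool.and_eq_true, List.all_eq_true, decide_eq_true_eq]
  simp only [List.mem_range, decide_eq_true_eq]
  refine and_congr ⟨fun h1 j hj => ?_, fun h1 j hj => ?_⟩ ?_
  · rw [hbget j hj, h1 j (by omega), hel j (by omega), hbtake j (by omega)]
    rfl
  · rw [← hbget j (by omega), h1 j (by omega), hel j hj, ← hbtake j hj]
    rfl
  · rw [Bool.eq_iff_iff, List.any_eq_true]
    simp only [List.mem_range, decide_eq_true_eq]
    refine iff_congr Iff.rfl (exists_congr fun j => and_congr_right fun hj => ?_)
    rw [hel j hj, hbtake j hj]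

/-- A positive test gives a correct answer. -/
theorem of_srch (hρ : 0 < ρ)
    (hlab : ∀ y, ((unbits Name (lab y)).map fun nm =>
      key (alg f (pairBits nm.1 nm.2.1) a nm.2.2)) = T y) {l : List ℕ}
    (hT : ∀ (k : ℕ) (b : List Bool), b.length = ρ →
        (∀ (j : ℕ) (hj : j < b.length), b[j] = step T k (b.take j)) →
        ((∃ j < ρ, T (b.take j) = some k) ↔ k ∈ l))
    {z : List Bool × Bool} {t : ℕ} (ht : t * ρ + ρ ≤ w.length)
    (hs : srch f (par x u h a ρ lab w) (z, t) = true) : (z.2 = true ↔ key z.1 ∈ l) := by
  rw [srch_iff hρ hlab ht rfl] at hs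
  rw [hs.2]
  refine hT _ _ ?_ hs.1
  rw [List.length_take, List.length_drop]
  omega

/-- The test is positive for the search path and the correct answer. -/
theorem srch_of (hρ : 0 < ρ)
    (hlab : ∀ y, ((unbits Name (lab y)).map fun nm =>
      key (alg f (pairBits nm.1 nm.2.1) a nm.2.2)) = T y) {l : List ℕ}
    (hT : ∀ (k : ℕ) (b : List Bool), b.length = ρ →
        (∀ (j : ℕ) (hj : j < b.length), b[j] = step T k (b.take j)) →
        ((∃ j < ρ, T (b.take j) = some k) ↔ k ∈ l))
    {z : List Bool × Bool} {t : ℕ} (ht : t * ρ + ρ ≤ w.length)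
    (hb : (w.drop (t * ρ)).take ρ = path T (key z.1) ρ) (hz : z.2 = true ↔ key z.1 ∈ l) :
    srch f (par x u h a ρ lab w) (z, t) = true := by
  rw [srch_iff hρ hlab ht hb.symm]
  have h1 : ∀ (j : ℕ) (hj : j < (path T (key z.1) ρ).length),
      (path T (key z.1) ρ)[j] = step T (key z.1) ((path T (key z.1) ρ).take j) := by
    intro j hj
    rw [getElem_path, take_path T _ (by rw [length_path] at hj; omega)]
  refine ⟨h1, ?_⟩
  rw [hz, hT _ _ (length_path _ _ _) h1]

end

end Pool.Agent.T9h36.NZ
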