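import Pool.Agent.NPC.Num

set_option autoImplicit false

/-!
# Binary search trees
-/

namespace Pool.Agent.T9h36.NZ

open Pool.Agent.NPC

/-- An injective numerical key of bit strings. -/
def key (s : List Bool) : ℕ := valB (s ++ [true])

theorem key_cons (b : Bool) (s : List Bool) : key (b :: s) = b.toNat + 2 * key s := by
  unfold key
  rw [List.cons_append, valB_cons]
  cases b <;> simp

theorem key_nil : key [] = 1 := by simp [key]

theorem key_pos : ∀ s : List Bool, 0 < key s
  | [] => by simp [key_nil]
  | b :: s => by
    have := key_pos s
    rw [key_cons]
    omega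

theorem key_injective : Function.Injective key := by
  intro s
  induction s with
  | nil =>
    intro t h
    cases t with
    | nil => rfl
    | cons b t =>
      exfalso
      rw [key_nil, key_cons] at h
      have := key_pos t
      omega
  | cons b s ih =>
    intro t h
    cases t with
    | nil =>
      exfalso
      rw [key_nil, key_cons] at h
      have := key_pos s
      omega
    | cons b' t =>
      rw [key_cons, key_cons] at h
      have h1 : b.toNat = b'.toNat := by
        cases b <;> cases b' <;> simp at h ⊢ <;> omega
      have h2 : b = b' := by
        cases b <;> cases b' <;> simp at h1 ⊢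
      subst h2
      rw [ih (show key s = key t by omega)]

/-- The next step of the search for `k` at the node `y` of the tree `T`. -/
def step (T : List Bool → Option ℕ) (k : ℕ) (y : List Bool) : Bool :=
  (T y).any fun m => decide (m ≤ k)

/-- Balanced search trees exist. -/
theorem exists_tree (ρ : ℕ) : ∀ l : List ℕ, l.Pairwise (· < ·) → l.length < 2 ^ ρ →
    ∃ T : List Bool → Option ℕ, (∀ y m, T y = some m → m ∈ l) ∧
      ∀ (k : ℕ) (b : List Bool), b.length = ρ →
        (∀ (j : ℕ) (hj : j < b.length), b[j] = step T k (b.take j)) →
        ((∃ j < ρ, T (b.take j) = some k) ↔ k ∈ l) := by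
  induction ρ with
  | zero =>
    intro l _ hlen
    have : l = [] := List.length_eq_zero_iff.1 (by simpa using hlen)
    subst this
    exact ⟨fun _ => none, by simp, by simp⟩
  | succ ρ ih =>
    intro l hl hlen
    rcases Nat.eq_zero_or_pos l.length with h0 | h0
    · have : l = [] := List.length_eq_zero_iff.1 h0
      subst this
      exact ⟨fun _ => none, by simp, by simp⟩
    have hk : l.length / 2 < l.length := by omega
    obtain ⟨k0, hk0⟩ : ∃ k0, k0 = l.length / 2 := ⟨_, rfl⟩
    rw [← hk0] at hk
    have hsplit : l = l.take k0 ++ l[k0] :: l.drop (k0 + 1) := by
      rw [List.cons_getElem_drop_succ, List.take_append_drop]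
    set l1 := l.take k0 with hl1
    set l2 := l.drop (k0 + 1) with hl2
    set m0 := l[k0] with hm0
    rw [pow_succ] at hlen
    have hlen1 : l1.length < 2 ^ ρ := by rw [hl1, List.length_take]; omega
    have hlen2 : l2.length < 2 ^ ρ := by rw [hl2, List.length_drop]; omega
    rw [hsplit, List.pairwise_append, List.pairwise_cons] at hl
    obtain ⟨hp1, ⟨hm2, hp2⟩, h12⟩ := hl
    obtain ⟨T1, hT1, hT1'⟩ := ih l1 hp1 hlen1
    obtain ⟨T2, hT2, hT2'⟩ := ih l2 hp2 hlen2
    have hm1 : ∀ m ∈ l1, m < m0 := fun m hm => h12 m hm m0 List.mem_cons_self
    refine ⟨fun y => match y with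
      | [] => some m0
      | false :: y => T1 y
      | true :: y => T2 y, ?_, ?_⟩
    · rintro (_ | ⟨b, y⟩) m hm
      · simp only [Option.some.injEq] at hm
        rw [hsplit, ← hm]
        simp
      · cases b
        · rw [hsplit]
          exact List.mem_append_left _ (hT1 y m hm)
        · rw [hsplit]
          exact List.mem_append_right _ (List.mem_cons_of_mem _ (hT2 y m hm))
    · intro k b hb hstep
      set T : List Bool → Option ℕ := fun y => match y with
        | [] => some m0
        | false :: y => T1 y
        | true :: y => T2 y with hT
      obtain ⟨b0, b', rfl⟩ : ∃ b0 b', b = b0 :: b' := by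
        cases b with
        | nil => simp at hb
        | cons b0 b' => exact ⟨b0, b', rfl⟩
      have hb' : b'.length = ρ := by simpa using hb
      have h0 := hstep 0 (by simp)
      rw [List.take_zero, List.getElem_cons_zero] at h0
      have h0' : b0 = decide (m0 ≤ k) := by
        rw [h0]
        simp [step, hT]
      have hex : (∃ j < ρ + 1, T ((b0 :: b').take j) = some k) ↔
          (m0 = k ∨ ∃ j < ρ, T (b0 :: b'.take j) = some k) := by
        constructor
        · rintro ⟨j, hj, h⟩
          cases j with
          | zero => left; simpa [hT] using h
          | succ j => right; exact ⟨j, by omega, by simpa using h⟩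
        · rintro (h | ⟨j, hj, h⟩)
          · exact ⟨0, by omega, by simp [hT, h]⟩
          · exact ⟨j + 1, by omega, by simpa using h⟩
      rw [hex]
      have hstep' : ∀ (j : ℕ) (hj : j < b'.length), b'[j] = step T k (b0 :: b'.take j) := by
        intro j hj
        have := hstep (j + 1) (by simpa using hj)
        simpa using this
      rcases lt_or_ge k m0 with hk0 | hk0
      · have hb0 : b0 = false := by rw [h0']; simpa using hk0
        subst hb0
        have h1 := hT1' k b' hb' (fun j hj => by
          rw [hstep' j hj]
          simp [step, hT])
        have e1 : (∃ j < ρ, T (false :: b'.take j) = some k) ↔ k ∈ l1 := h1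
        rw [e1, hsplit, List.mem_append, List.mem_cons]
        constructor
        · rintro (h | h)
          · omega
          · exact Or.inl h
        · rintro (h | h | h)
          · exact Or.inr h
          · omega
          · have := hm2 k h
            omega
      · have hb0 : b0 = true := by rw [h0']; simpa using hk0
        subst hb0
        have h1 := hT2' k b' hb' (fun j hj => by
          rw [hstep' j hj]
          simp [step, hT])
        have e1 : (∃ j < ρ, T (true :: b'.take j) = some k) ↔ k ∈ l2 := h1
        rw [e1, hsplit, List.mem_append, List.mem_cons]
        constructor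
        · rintro (h | h)
          · exact Or.inr (Or.inl h.symm)
          · exact Or.inr (Or.inr h)
        · rintro (h | h | h)
          · have := hm1 k h
            omega
          · exact Or.inl h.symm
          · exact Or.inr h

/-- The search path. -/
def path (T : List Bool → Option ℕ) (k : ℕ) : ℕ → List Bool
  | 0 => []
  | j + 1 => path T k j ++ [step T k (path T k j)]

theorem length_path (T : List Bool → Option ℕ) (k : ℕ) : ∀ ρ, (path T k ρ).length = ρ
  | 0 => rfl
  | j + 1 => by rw [path, List.length_append, length_path T k j]; rfl

theorem take_path (T : List Bool → Option ℕ) (k : ℕ) {j : ℕ} : ∀ {ρ : ℕ}, j ≤ ρ →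
    (path T k ρ).take j = path T k j
  | 0, h => by
    have : j = 0 := by omega
    subst this
    rfl
  | ρ + 1, h => by
    rcases Nat.lt_or_ge ρ j with h1 | h1
    · have : j = ρ + 1 := by omega
      subst this
      rw [List.take_of_length_le (by rw [length_path])]
    · rw [path, List.take_append_of_le_length (by rw [length_path]; exact h1), take_path T k h1]

theorem getElem_path (T : List Bool → Option ℕ) (k : ℕ) {j : ℕ} : ∀ {ρ : ℕ}
    (h : j < (path T k ρ).length), (path T k ρ)[j] = step T k (path T k j)
  | 0, h => by simp [path] at h
  | ρ + 1, h => by
    rw [length_path] at h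
    rcases Nat.lt_or_ge j ρ with h1 | h1
    · have h2 : j < (path T k ρ).length := by rw [length_path]; exact h1
      have h3 := getElem_path T k h2
      rw [← h3]
      simp only [path]
      rw [List.getElem_append_left]
    · have : j = ρ := by omega
      subst this
      simp only [path]
      rw [List.getElem_append_right (by rw [length_path])]
      simp [length_path]

theorem length_flatMap_const {α β : Type} (g : α → List β) {ρ : ℕ} (hg : ∀ a, (g a).length = ρ) :
    ∀ l : List α, (l.flatMap g).length = l.length * ρ
  | [] => by simp
  | a :: l => by
    rw [List.flatMap_cons, List.length_append, hg, length_flatMap_const g hg l, List.length_cons]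
    ring

/-- The blocks of a concatenation. -/
theorem drop_flatMap_const {α β : Type} (g : α → List β) {ρ : ℕ} (hg : ∀ a, (g a).length = ρ) :
    ∀ (l : List α) (t : ℕ) (ht : t < l.length) (j : ℕ), j ≤ ρ →
      ((l.flatMap g).drop (t * ρ)).take j = (g l[t]).take j
  | [], t, ht, _, _ => by simp at ht
  | a :: l, t, ht, j, hj => by
    cases t with
    | zero =>
      rw [Nat.zero_mul, List.drop_zero, List.flatMap_cons, List.take_append_of_le_length
        (by rw [hg]; exact hj)]
      rfl
    | succ t =>
      have e1 : (t + 1) * ρ = (g a).length + t * ρ := by rw [hg]; ring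
      have ht' : t < l.length := by simpa using ht
      rw [List.flatMap_cons, e1, List.drop_append, List.drop_of_length_le (by omega),
        List.nil_append, show (g a).length + t * ρ - (g a).length = t * ρ by omega,
        drop_flatMap_const g hg l t ht' j hj]
      rfl

end Pool.Agent.T9h36.NZ
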