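import Pool.Agent.T9h36.NZ.Closure
import Pool.Agent.T9h36.NZ.Search
import Pool.Agent.T9h36.NZ.Defs

set_option autoImplicit false

/-!
# The search protocol
-/

namespace Pool.Agent.T9h36.NZ

open Pool.Agent.NPC Pool.Agent.H660R2.NX Pool.Agent.T9h36.NX Pool.Agent.T9h36.NY Turing

attribute [local irreducible] unpair

/-- Names of queries: an input, a guessed string and a list of answers. -/
abbrev Name := List Bool × List Bool × List Bool

/-- The parameters: `(x, u, h)`, the transcript `(w, R)` and the first reply `(a, P, l0)`. -/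
abbrev Par := Name × (List Bool × List (List Bool)) × (List Bool × List Unit × List Bool)

/-- Decoding of the input of the algorithm. -/
def prs (y : List Bool) : Option Par :=
  (unbits (List Bool × List Bool × List Bool) y).bind fun t =>
    (unbits (List Bool × List Bool) t.2.1).bind fun uh =>
      (unbits (List Bool × List (List Bool)) t.2.2).bind fun wr =>
        (unbits (List Bool × List Unit × List Bool) (wr.2.getD 0 [])).map fun ap =>
          ((t.1, uh), wr, ap)

theorem poly_prs : NPC.Poly prs := by
  unfold prs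
  have h0 : NPC.Poly (unbits (List Bool × List Bool × List Bool)) := poly_unbits
  have h1 : NPC.Poly (unbits (List Bool × List Bool)) := poly_unbits
  have h2 : NPC.Poly (unbits (List Bool × List (List Bool))) := poly_unbits
  have h3 : NPC.Poly (unbits (List Bool × List Unit × List Bool)) := poly_unbits
  refine NPC.Poly.optBind (o := unbits (List Bool × List Bool × List Bool)) h0 ?_
  refine NPC.Poly.optBind (o := fun q : List Bool × (List Bool × List Bool × List Bool) =>
    unbits (List Bool × List Bool) q.2.2.1) (h1.comp (by fun_prop)) ?_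
  refine NPC.Poly.optBind (o := fun q : (List Bool × (List Bool × List Bool × List Bool)) ×
    (List Bool × List Bool) => unbits (List Bool × List (List Bool)) q.1.2.2.2)
    (h2.comp (by fun_prop)) ?_
  have h4 : NPC.Poly (fun q : ((List Bool × (List Bool × List Bool × List Bool)) ×
    (List Bool × List Bool)) × (List Bool × List (List Bool)) => q.2.2.getD 0 []) :=
    NPC.Poly.getD (by fun_prop) (NPC.Poly.const _) (NPC.Poly.const _)
  refine NPC.Poly.optMap (o := fun q : ((List Bool × (List Bool × List Bool × List Bool)) ×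
    (List Bool × List Bool)) × (List Bool × List (List Bool)) =>
    unbits (List Bool × List Unit × List Bool) (q.2.2.getD 0 [])) (h3.comp h4) ?_
  fun_prop

variable (f : List Bool → List Bool)

/-- The action after `i` answers. -/
def actD (d : Par) (i : ℕ) : List Bool := alg f (pairBits d.1.1 d.1.2.1) d.2.2.1 (d.1.2.2.take i)

/-- The key of the query named by the label at the position `p` of the transcript. -/
def elK (d : Par) (p : ℕ) : Option ℕ :=
  (unbits Name (if p = 0 then d.2.2.2.2 else d.2.1.2.getD p [])).map fun n =>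
    key (alg f (pairBits n.1 n.2.1) d.2.2.1 n.2.2)

/-- The queries to the sparse set, with their answers. -/
def zq (d : Par) : List (List Bool × Bool) :=
  ((List.range d.1.2.2.length).filter fun i => decide ((actD f d i).take 2 = [false, true])).map
    fun i => (actD f d i, d.1.2.2.getD i false)

/-- The test of the search for one query. -/
def srch (d : Par) (zt : (List Bool × Bool) × ℕ) : Bool :=
  ((List.range d.2.2.2.1.length).all fun j =>
    decide (d.2.1.1.getD (zt.2 * d.2.2.2.1.length + j) false =
      (elK f d (zt.2 * d.2.2.2.1.length + j)).any fun m => decide (m ≤ key zt.1.1))) &&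
  decide (zt.1.2 = (List.range d.2.2.2.1.length).any fun j =>
    decide (elK f d (zt.2 * d.2.2.2.1.length + j) = some (key zt.1.1)))

/-- All tests that do not concern the set `A`. -/
def chk (Cp : Polynomial ℕ) (d : Par) : Bool :=
  (decide (d.1.2.1.length ≤ Cp.eval d.1.1.length) &&
    decide (d.1.2.2.length ≤ Cp.eval d.1.1.length)) &&
  (((List.range d.1.2.2.length).all fun i => decide ((actD f d i).head? = some false) &&
    !(decide (actD f d i = [false]) && d.1.2.2.getD i false)) &&
  (decide (actD f d d.1.2.2.length = [true]) &&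
  (decide (d.2.1.1.length = (zq f d).length * d.2.2.2.1.length) &&
    (zq f d).zipIdx.all fun zt => srch f d zt)))

/-- The queries to `A` with the answer yes. -/
def yesQ (d : Par) : List (List Bool) :=
  ((List.range d.1.2.2.length).filter fun i => decide ((actD f d i).take 2 = [false, false]) &&
    d.1.2.2.getD i false).map fun i => (actD f d i).tail.tail

/-- The queries to `A` with the answer no. -/
def noQ (d : Par) : List (List Bool) :=
  ((List.range d.1.2.2.length).filter fun i => decide ((actD f d i).take 2 = [false, false]) &&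
    !d.1.2.2.getD i false).map fun i => (actD f d i).tail.tail

variable {f}

theorem poly_alg {α : Type} [TEnc α] (hf : PolyTime f) {x u a h : α → List Bool}
    (hx : NPC.Poly x) (hu : NPC.Poly u) (ha : NPC.Poly a) (hh : NPC.Poly h) :
    NPC.Poly (fun b => alg f (pairBits (x b) (u b)) (a b) (h b)) := by
  unfold alg
  exact (poly_of_polyTime hf).comp (poly_pairBits (poly_pairBits (poly_pairBits hx hu) ha) hh)

theorem poly_key {α : Type} [TEnc α] {s : α → List Bool} (hs : NPC.Poly s) :
    NPC.Poly (fun b => key (s b)) := by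
  unfold key
  exact NPC.Poly.valBits (NPC.Poly.append hs (NPC.Poly.const _))

theorem poly_actD {α : Type} [TEnc α] (hf : PolyTime f) {d : α → Par} {i : α → ℕ}
    (hd : NPC.Poly d) (hi : NPC.Poly i) : NPC.Poly (fun b => actD f (d b) (i b)) := by
  unfold actD
  exact poly_alg hf (by fun_prop) (by fun_prop) (by fun_prop) (poly_take (by fun_prop) hi)

theorem poly_elK {α : Type} [TEnc α] (hf : PolyTime f) {d : α → Par} {p : α → ℕ}
    (hd : NPC.Poly d) (hp : NPC.Poly p) : NPC.Poly (fun b => elK f (d b) (p b)) := by
  unfold elK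
  have h0 : NPC.Poly (unbits Name) := poly_unbits
  have h1 : NPC.Poly (fun b => (d b).2.1.2.getD (p b) []) :=
    NPC.Poly.getD (by fun_prop) hp (NPC.Poly.const _)
  have h2 : NPC.Poly (fun b => if p b = 0 then (d b).2.2.2.2 else (d b).2.1.2.getD (p b) []) :=
    NPC.Poly.ite (NPC.Poly.dec_eq hp (NPC.Poly.const _)) (by fun_prop) h1
  refine NPC.Poly.optMap (o := fun b => unbits Name
    (if p b = 0 then (d b).2.2.2.2 else (d b).2.1.2.getD (p b) [])) (h0.comp h2) ?_
  have hd' : NPC.Poly (fun q : α × Name => d q.1) := hd.comp (by fun_prop)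
  exact poly_key (poly_alg hf (by fun_prop) (by fun_prop) (by fun_prop) (by fun_prop))

theorem poly_hlen {α : Type} [TEnc α] {d : α → Par} (hd : NPC.Poly d) :
    UPoly (fun b => (d b).1.2.2.length) := UPoly.length (by fun_prop)

theorem poly_zq {α : Type} [TEnc α] (hf : PolyTime f) {d : α → Par} (hd : NPC.Poly d) :
    NPC.Poly (fun b => zq f (d b)) := by
  unfold zq
  have hd' : NPC.Poly (fun q : α × ℕ => d q.1) := hd.comp (by fun_prop)
  have h1 : NPC.Poly (fun q : α × ℕ => actD f (d q.1) q.2) := poly_actD hf hd' (by fun_prop)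
  refine NPC.Poly.map (NPC.Poly.filter (UPoly.range (poly_hlen hd))
    (NPC.Poly.dec_eq (poly_take h1 (NPC.Poly.const _)) (NPC.Poly.const _))) ?_
  exact NPC.Poly.pair h1 (NPC.Poly.getD (by fun_prop) (by fun_prop) (NPC.Poly.const _))

theorem poly_srch {α : Type} [TEnc α] (hf : PolyTime f) {d : α → Par}
    {zt : α → (List Bool × Bool) × ℕ} (hd : NPC.Poly d) (hzt : NPC.Poly zt) :
    NPC.Poly (fun b => srch f (d b) (zt b)) := by
  unfold srch
  have hd' : NPC.Poly (fun q : α × ℕ => d q.1) := hd.comp (by fun_prop)
  have hzt' : NPC.Poly (fun q : α × ℕ => zt q.1) := hzt.comp (by fun_prop)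
  have hr : NPC.Poly (fun b => List.range (d b).2.2.2.1.length) :=
    UPoly.range (UPoly.length (by fun_prop))
  have hpos : NPC.Poly (fun q : α × ℕ => (zt q.1).2 * (d q.1).2.2.2.1.length + q.2) :=
    NPC.Poly.add (NPC.Poly.mul (by fun_prop) (NPC.Poly.length (by fun_prop))) (by fun_prop)
  have hel : NPC.Poly (fun q : α × ℕ =>
      elK f (d q.1) ((zt q.1).2 * (d q.1).2.2.2.1.length + q.2)) := poly_elK hf hd' hpos
  have hk : NPC.Poly (fun q : α × ℕ => key (zt q.1).1.1) := poly_key (by fun_prop)
  refine NPC.Poly.and (NPC.Poly.all hr (NPC.Poly.dec_eq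
    (NPC.Poly.getD (by fun_prop) hpos (NPC.Poly.const _)) ?_))
    (NPC.Poly.dec_eq (by fun_prop) (NPC.Poly.any hr (NPC.Poly.dec_eq hel (NPC.Poly.some hk))))
  refine NPC.Poly.optAny_fp hel ?_
  exact NPC.Poly.decide_le (by fun_prop) (hk.comp (f := fun q : (α × ℕ) × ℕ => q.1) (by fun_prop))

theorem poly_chk {α : Type} [TEnc α] (hf : PolyTime f) (Cp : Polynomial ℕ) {d : α → Par}
    (hd : NPC.Poly d) : NPC.Poly (fun b => chk f Cp (d b)) := by
  unfold chk
  have hC : NPC.Poly (fun b => Cp.eval (d b).1.1.length) :=
    (UPoly.eval (UPoly.length (by fun_prop)) _).toPoly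
  refine NPC.Poly.and (NPC.Poly.and (NPC.Poly.decide_le (NPC.Poly.length (by fun_prop)) hC)
    (NPC.Poly.decide_le (NPC.Poly.length (by fun_prop)) hC)) ?_
  have hd' : NPC.Poly (fun q : α × ℕ => d q.1) := hd.comp (by fun_prop)
  have h1 : NPC.Poly (fun q : α × ℕ => actD f (d q.1) q.2) := poly_actD hf hd' (by fun_prop)
  have h2 : NPC.Poly (fun b => zq f (d b)) := poly_zq hf hd
  have h3 : NPC.Poly (fun q : α × ℕ => (d q.1).1.2.2.getD q.2 false) :=
    NPC.Poly.getD (by fun_prop) (by fun_prop) (NPC.Poly.const _)
  refine NPC.Poly.and (NPC.Poly.all (UPoly.range (poly_hlen hd)) (NPC.Poly.and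
    (NPC.Poly.dec_eq (NPC.Poly.head? h1) (NPC.Poly.const _))
    (NPC.Poly.not (NPC.Poly.and (NPC.Poly.dec_eq h1 (NPC.Poly.const _)) h3)))) ?_
  refine NPC.Poly.and (NPC.Poly.dec_eq (poly_actD hf hd (NPC.Poly.length (by fun_prop)))
    (NPC.Poly.const _)) ?_
  refine NPC.Poly.and (NPC.Poly.dec_eq (NPC.Poly.length (by fun_prop))
    (NPC.Poly.mul (NPC.Poly.length h2) (NPC.Poly.length (by fun_prop)))) ?_
  refine NPC.Poly.all (NPC.Poly.zipIdx h2) ?_
  exact poly_srch hf (hd.comp (f := fun q : α × ((List Bool × Bool) × ℕ) => q.1) (by fun_prop))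
    (by fun_prop)

theorem poly_yesQ {α : Type} [TEnc α] (hf : PolyTime f) {d : α → Par} (hd : NPC.Poly d) :
    NPC.Poly (fun b => yesQ f (d b)) := by
  unfold yesQ
  have hd' : NPC.Poly (fun q : α × ℕ => d q.1) := hd.comp (by fun_prop)
  have h1 : NPC.Poly (fun q : α × ℕ => actD f (d q.1) q.2) := poly_actD hf hd' (by fun_prop)
  have h3 : NPC.Poly (fun q : α × ℕ => (d q.1).1.2.2.getD q.2 false) :=
    NPC.Poly.getD (by fun_prop) (by fun_prop) (NPC.Poly.const _)
  refine NPC.Poly.map (NPC.Poly.filter (UPoly.range (poly_hlen hd)) (NPC.Poly.and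
    (NPC.Poly.dec_eq (poly_take h1 (NPC.Poly.const _)) (NPC.Poly.const _)) h3)) ?_
  exact NPC.Poly.tail (NPC.Poly.tail h1)

theorem poly_noQ {α : Type} [TEnc α] (hf : PolyTime f) {d : α → Par} (hd : NPC.Poly d) :
    NPC.Poly (fun b => noQ f (d b)) := by
  unfold noQ
  have hd' : NPC.Poly (fun q : α × ℕ => d q.1) := hd.comp (by fun_prop)
  have h1 : NPC.Poly (fun q : α × ℕ => actD f (d q.1) q.2) := poly_actD hf hd' (by fun_prop)
  have h3 : NPC.Poly (fun q : α × ℕ => (d q.1).1.2.2.getD q.2 false) :=
    NPC.Poly.getD (by fun_prop) (by fun_prop) (NPC.Poly.const _)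
  refine NPC.Poly.map (NPC.Poly.filter (UPoly.range (poly_hlen hd)) (NPC.Poly.and
    (NPC.Poly.dec_eq (poly_take h1 (NPC.Poly.const _)) (NPC.Poly.const _)) (NPC.Poly.not h3))) ?_
  exact NPC.Poly.tail (NPC.Poly.tail h1)

/-- The first set of the algorithm. -/
def setB (f : List Bool → List Bool) (Cp : Polynomial ℕ) (A : Set (List Bool)) :
    Set (List Bool) :=
  {y | ((prs y).any fun d => chk f Cp d) = true ∧
    ∀ s ∈ (prs y).elim [] (yesQ f), s ∈ A}

/-- The second set of the algorithm. -/
def setB' (f : List Bool → List Bool) (A : Set (List Bool)) : Set (List Bool) :=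
  {y | ∃ s ∈ (prs y).elim [] (noQ f), s ∈ A}

theorem inNP_setB (hf : PolyTime f) (Cp : Polynomial ℕ) {A : Set (List Bool)} (hA : InNP A) :
    InNP (setB f Cp A) := by
  refine inNP_all hA ?_ ?_
  · exact NPC.Poly.optAny_fp poly_prs
      (poly_chk hf Cp (d := fun q : List Bool × Par => q.2) (by fun_prop))
  · exact Poly.optElim poly_prs (NPC.Poly.const _)
      (poly_yesQ hf (d := fun q : List Bool × Par => q.2) (by fun_prop))

theorem inNP_setB' (hf : PolyTime f) {A : Set (List Bool)} (hA : InNP A) : InNP (setB' f A) := by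
  refine inNP_any hA ?_
  exact Poly.optElim poly_prs (NPC.Poly.const _)
    (poly_noQ hf (d := fun q : List Bool × Par => q.2) (by fun_prop))

/-! ### The advice holder -/

/-- The answers of the advice holder: the table is looked up at the last bits that were sent. -/
def holder (z : List Bool) : List Bool :=
  (unbits (List Bool × List Bool) z).elim [] fun av =>
    (unbits (List Bool × List Unit × List (List Bool × List Bool)) av.1).elim [] fun t =>
      if av.2 = [] then t.1 else
        (((t.2.2.filter fun p => decide (p.1 =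
          (av.2.reverse.take (av.2.length % t.2.1.length)).reverse)).map
            fun p => p.2).head?).elim [] fun s => s

theorem poly_holder : NPC.Poly holder := by
  unfold holder
  have h0 : NPC.Poly (unbits (List Bool × List Bool)) := poly_unbits
  have h1 : NPC.Poly (unbits (List Bool × List Unit × List (List Bool × List Bool))) :=
    poly_unbits
  refine Poly.optElim (o := unbits (List Bool × List Bool)) h0 (by fun_prop) ?_
  refine Poly.optElim (o := fun q : List Bool × (List Bool × List Bool) =>
    unbits (List Bool × List Unit × List (List Bool × List Bool)) q.2.1)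
    (h1.comp (by fun_prop)) (by fun_prop) ?_
  have h2 : NPC.Poly (fun r : ((List Bool × (List Bool × List Bool)) ×
      (List Bool × List Unit × List (List Bool × List Bool))) × (List Bool × List Bool) =>
      (r.1.1.2.2.reverse.take (r.1.1.2.2.length % r.1.2.2.1.length)).reverse) :=
    NPC.Poly.reverse (poly_take (by fun_prop) (NPC.Poly.mod (NPC.Poly.length (by fun_prop))
      (NPC.Poly.length (by fun_prop))))
  refine NPC.Poly.ite (NPC.Poly.dec_eq (by fun_prop) (by fun_prop)) (by fun_prop) ?_
  refine Poly.optElim (NPC.Poly.head? (NPC.Poly.map (NPC.Poly.filter (by fun_prop)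
    (NPC.Poly.dec_eq (by fun_prop) h2)) (by fun_prop))) (by fun_prop) (by fun_prop)

theorem inFEXP_holder : InFEXP holder := by
  refine ⟨fun y => holder (unpair y).1, 0, polyTime_of_poly' (poly_holder.comp (by fun_prop)),
    fun z => ?_⟩
  simp only [unpair_pairBits]

/-- The table. -/
def table (ρ : ℕ) (lab : List Bool → List Bool) : List (List Bool × List Bool) :=
  (allStr ρ).map fun y => (y, lab y)

theorem lookup_eq {lab : List Bool → List Bool} {y : List Bool} : ∀ {l : List (List Bool)},
    y ∈ l → ((((l.map fun y => (y, lab y)).filter fun p => decide (p.1 = y)).map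
      fun p => p.2).head?).elim [] (fun s => s) = lab y
  | [], h => by simp at h
  | z :: l, h => by
    rw [List.map_cons]
    by_cases hz : z = y
    · subst hz
      simp
    · rw [List.filter_cons_of_neg (by simpa using hz)]
      exact lookup_eq (by simpa [Ne.symm hz] using h)

/-- The advice string. -/
def adv (a : List Bool) (ρ : ℕ) (lab : List Bool → List Bool) : List Bool :=
  bits (bits (a, List.replicate ρ (), lab []), List.replicate ρ (), table ρ lab)

theorem holder_nil (a : List Bool) (ρ : ℕ) (lab : List Bool → List Bool) :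
    holder (bits (adv a ρ lab, ([] : List Bool))) = bits (a, List.replicate ρ (), lab []) := by
  unfold holder
  have e1 := unbits_bits (α := List Bool × List Bool) (adv a ρ lab, ([] : List Bool))
  rw [e1]
  simp only [Option.elim_some]
  unfold adv
  rw [unbits_bits]
  simp

theorem holder_ne (a : List Bool) {ρ : ℕ} (hρ : 0 < ρ) (lab : List Bool → List Bool)
    {v : List Bool} (hv : v ≠ []) :
    holder (bits (adv a ρ lab, v)) = lab (v.reverse.take (v.length % ρ)).reverse := by
  unfold holder
  rw [unbits_bits]
  simp only [Option.elim_some]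
  unfold adv
  rw [unbits_bits]
  simp only [Option.elim_some, List.length_replicate]
  rw [if_neg hv]
  unfold table
  refine lookup_eq ?_
  rw [mem_allStr, List.length_reverse, List.length_take]
  have := Nat.mod_lt v.length hρ
  omega

end Pool.Agent.T9h36.NZ
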